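import Pool.Agent.BSpi.PSLn.Two

set_option autoImplicit false
set_option linter.unusedSimpArgs false
set_option linter.unusedSectionVars false
set_option linter.unusedVariables false

open Matrix Matrix.SpecialLinearGroup
open scoped MatrixGroups

namespace Pool.Agent.BSpi.PSLn

variable {ι F : Type} [Fintype ι] [DecidableEq ι] [Field F] {π : Set ℕ}

/-- Elements of given prime order are recognised by their trace. -/
lemma order_of_trace [Finite F] (p : ℕ) [hp : Fact p.Prime] [CharP F p] {ℓ : ℕ} (hℓ : ℓ.Prime)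
    (hℓp : ℓ ≠ p) (X : SL(2, F)) (hX : orderOf X = ℓ) :
    ∃ c : F, c ≠ 2 ∧ ∀ M : SL(2, F), M 0 0 + M 1 1 = c → orderOf (PSL.mk M) = ℓ := by
  have := Fact.mk hℓ
  have hXℓ : X ^ ℓ = 1 := by rw [← hX]; exact pow_orderOf_eq_one X
  by_cases h2 : ℓ = 2
  · subst h2
    have h2ne : (2 : F) ≠ 0 := by
      intro h2
      have h3 : ((2 : ℕ) : F) = 0 := by exact_mod_cast h2
      rw [CharP.cast_eq_zero_iff F p] at h3
      exact hℓp ((Nat.prime_dvd_prime_iff_eq hp.out Nat.prime_two).1 h3).symm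
    refine ⟨0, h2ne.symm, fun M hM => ?_⟩
    have hd := PSL.det_eq M
    have h11 : M 1 1 = - M 0 0 := by linear_combination hM
    refine orderOf_eq_prime ?_ ?_
    · rw [← map_pow, ← map_one PSL.mk, PSL.mk_eq]
      right
      rw [h11] at hd
      rw [pow_two]
      apply PSL.sl_ext
      · rw [PSL.mul00, PSL.neg00, PSL.one00]
        linear_combination -hd
      · rw [PSL.mul01, PSL.neg01, PSL.one01, h11]
        ring
      · rw [PSL.mul10, PSL.neg10, PSL.one10, h11]
        ring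
      · rw [PSL.mul11, PSL.neg11, PSL.one11, h11]
        linear_combination -hd
    · intro h1
      rw [← map_one PSL.mk, PSL.mk_eq] at h1
      rcases h1 with h1 | h1
      · rw [h1, PSL.one00, PSL.one11] at hM
        exact h2ne (by linear_combination hM)
      · rw [h1, PSL.neg00, PSL.neg11, PSL.one00, PSL.one11] at hM
        exact h2ne (by linear_combination -hM)
  · obtain ⟨m, hm⟩ := hℓ.odd_of_ne_two h2
    have hX1 : PSL.mk X ≠ 1 := by
      intro h1
      rw [← map_one PSL.mk, PSL.mk_eq] at h1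
      have h3 : X ^ 2 = 1 := by
        rcases h1 with h1 | h1
        · rw [h1, one_pow]
        · rw [h1, neg_sq, one_pow]
      have h4 : ℓ ∣ 2 := by rw [← hX]; exact orderOf_dvd_of_pow_eq_one h3
      exact h2 ((Nat.prime_dvd_prime_iff_eq hℓ Nat.prime_two).1 h4)
    have hc2 : X 0 0 + X 1 1 ≠ 2 := by
      intro h
      have h4 : ℓ ∣ p := by rw [← hX]; exact orderOf_dvd_of_pow_eq_one (PSL.unip_pow p h)
      exact hℓp ((Nat.prime_dvd_prime_iff_eq hℓ hp.out).1 h4)
    refine ⟨X 0 0 + X 1 1, hc2, fun M hM => ?_⟩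
    have hMℓ : M ^ ℓ = 1 := PSL.pow_of_trace hX1 hXℓ hM.symm
    refine orderOf_eq_prime ?_ ?_
    · rw [← map_pow, hMℓ, map_one]
    · intro h1
      rw [← map_one PSL.mk, PSL.mk_eq] at h1
      have h5 : M = 1 := by
        rcases h1 with h1 | h1
        · exact h1
        · rw [h1, Odd.neg_pow ⟨m, hm⟩, one_pow] at hMℓ
          rw [h1, hMℓ]
      rw [h5, PSL.one00, PSL.one11] at hM
      exact hc2 (by rw [← hM]; norm_num)

lemma isPi_of_pgroup {G : Type} [Group G] {p : ℕ} (hp : p.Prime) (hpπ : p ∈ π) {H : Subgroup G}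
    (hH : IsPGroup p H) [Finite H] : IsPi π H := by
  have := Fact.mk hp
  obtain ⟨n, hn⟩ := hH.exists_card_eq
  intro q hq hqd
  rw [hn] at hqd
  rw [(Nat.prime_dvd_prime_iff_eq hq hp).1 (hq.dvd_of_dvd_pow hqd)]
  exact hpπ

lemma one_add_pow (p : ℕ) [hp : Fact p.Prime] [CharP F p] (N : Matrix ι ι F) (hN : N * N = 0)
    [Nonempty ι] : (1 + N) ^ p = 1 := by
  have h2 : N ^ p = 0 := by
    have h3 : p = 2 + (p - 2) := by have := hp.out.two_le; omega
    rw [h3, pow_add, pow_two, hN, zero_mul]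
  rw [add_pow_char_of_commute p (Commute.one_left _), h2, one_pow, add_zero]

/-- The subgroup acting trivially modulo a plane. -/
def HS (v w : ι → F) : Subgroup (Matrix.SpecialLinearGroup ι F) where
  carrier := {A | ∃ R : Matrix (Fin 2) ι F, A.1 = 1 + col2 v w * R}
  mul_mem' := by
    rintro A B ⟨R, hR⟩ ⟨S, hS⟩
    refine ⟨R + S + R * col2 v w * S, ?_⟩
    rw [Matrix.SpecialLinearGroup.coe_mul, hR, hS]
    simp only [Matrix.add_mul, Matrix.mul_add, Matrix.one_mul, Matrix.mul_one, Matrix.mul_assoc]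
    abel
  one_mem' := ⟨0, by rw [Matrix.mul_zero, add_zero]; rfl⟩
  inv_mem' := by
    rintro A ⟨R, hR⟩
    have hdet : det (1 + R * col2 v w) = 1 := by
      rw [det_one_add_mul_comm, ← hR]
      exact A.2
    refine ⟨-(adjugate (1 + R * col2 v w) * R), ?_⟩
    have h1 : A.1 * (1 + col2 v w * -(adjugate (1 + R * col2 v w) * R)) = 1 := by
      have h2 : (1 + R * col2 v w) * adjugate (1 + R * col2 v w) = 1 := by
        rw [mul_adjugate, hdet, one_smul]
      have h3 : col2 v w * ((1 + R * col2 v w) * adjugate (1 + R * col2 v w)) * R =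
          col2 v w * R := by rw [h2, Matrix.mul_one]
      rw [hR]
      simp only [Matrix.add_mul, Matrix.mul_add, Matrix.one_mul, Matrix.mul_one,
        Matrix.mul_neg, Matrix.mul_assoc] at h3 ⊢
      rw [add_assoc, h3]
      abel
    have h2 := congrArg (fun Z => (A⁻¹).1 * Z) h1
    simp only [← Matrix.mul_assoc, inv_mul_val, Matrix.one_mul, Matrix.mul_one] at h2
    exact h2.symm

lemma HS_isPi [Finite F] (p : ℕ) [hp : Fact p.Prime] [CharP F p] (hpπ : p ∈ π)
    (hπ : ∀ ℓ : ℕ, ℓ.Prime → ℓ ∣ Nat.card SL(2, F) → ℓ ∈ π) {v w : ι → F} (h : Ind v w) :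
    IsPi π (HS v w) := by
  obtain ⟨V, hV⟩ := exists_left h
  have hne : Nonempty ι := by
    obtain ⟨i, -⟩ := h
    exact ⟨i⟩
  refine isPi_of_orders ?_
  rintro A ⟨R, hR⟩ ℓ hℓ hAℓ
  have hdet : det (1 + R * col2 v w) = 1 := by
    rw [det_one_add_mul_comm, ← hR]
    exact A.2
  let M : SL(2, F) := ⟨1 + R * col2 v w, hdet⟩
  have hAU : A.1 * col2 v w = col2 v w * M.1 := by
    rw [hR]
    change _ = col2 v w * (1 + R * col2 v w)
    rw [Matrix.add_mul, Matrix.mul_add, Matrix.one_mul, Matrix.mul_one, Matrix.mul_assoc]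
  have hMℓ : M ^ ℓ = 1 := by
    have h1 := pow_mul_U hAU ℓ
    rw [← hAℓ, pow_orderOf_eq_one, hAℓ] at h1
    have h2 : V * ((1 : Matrix ι ι F) * col2 v w) = V * (col2 v w * (M ^ ℓ).1) :=
      congrArg (fun Z => V * Z) h1
    rw [Matrix.one_mul, ← Matrix.mul_assoc, hV, Matrix.one_mul] at h2
    exact coe_inj h2.symm
  by_cases hM : M = 1
  · have h1 : R * col2 v w = 0 := by
      have h2 : (1 : Matrix (Fin 2) (Fin 2) F) + R * col2 v w = 1 := congrArg Subtype.val hM
      exact add_left_cancel (h2.trans (add_zero 1).symm)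
    have h2 : A ^ p = 1 := by
      apply coe_inj
      rw [Matrix.SpecialLinearGroup.coe_pow, hR, one_add_pow p]
      · rfl
      · rw [Matrix.mul_assoc, ← Matrix.mul_assoc R, h1, Matrix.zero_mul, Matrix.mul_zero]
    have h3 : ℓ ∣ p := by rw [← hAℓ]; exact orderOf_dvd_of_pow_eq_one h2
    rw [(Nat.prime_dvd_prime_iff_eq hℓ hp.out).1 h3]
    exact hpπ
  · have := Fact.mk hℓ
    apply hπ ℓ hℓ
    rw [← orderOf_eq_prime hMℓ hM]
    exact orderOf_dvd_natCard M

/-- Two transvections generate a `π`-group. -/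
lemma pair_isPi [Finite F] (p : ℕ) [hp : Fact p.Prime] [CharP F p] (hpπ : p ∈ π)
    (hπ : ∀ ℓ : ℕ, ℓ.Prime → ℓ ∣ Nat.card SL(2, F) → ℓ ∈ π) {x y : Pn ι F} (hx : isT x)
    (hy : isT y) : IsPi π (Subgroup.closure {x, y}) := by
  obtain ⟨v, φ, hv, hφ, h, rfl⟩ := hx
  obtain ⟨w, ψ, hw, hψ, h', rfl⟩ := hy
  by_cases hvw : Ind v w
  · rw [← map_pair]
    refine IsPi.map ?_ mk
    refine (HS_isPi p hpπ hπ hvw).mono ?_
    rw [Subgroup.closure_le]
    rintro A (rfl | rfl)
    · refine ⟨row2 φ 0, ?_⟩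
      rw [tv_val h]
      congr 1
      ext i j
      rw [Matrix.mul_apply, Fin.sum_univ_two, vecMulVec_apply]
      change v i * φ j = v i * φ j + w i * 0
      ring
    · refine ⟨row2 0 ψ, ?_⟩
      rw [tv_val h']
      congr 1
      ext i j
      rw [Matrix.mul_apply, Fin.sum_univ_two, vecMulVec_apply]
      change w i * ψ j = v i * 0 + w i * ψ j
      ring
  · obtain ⟨c, rfl⟩ := par_of_not_ind hv hvw
    have hc : c ≠ 0 := by
      rintro rfl
      exact hw (zero_smul _ _)
    have h1 : IsPi π (PV v : Subgroup (Pn ι F)) :=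
      isPi_of_pgroup hp.out hpπ ((EV_pgroup p v).map _)
    refine h1.mono ?_
    rw [Subgroup.closure_le]
    rintro A (rfl | rfl)
    · exact mem_PV_tv h
    · have := mem_PV_tv h'
      rwa [PV_smul hc] at this

end Pool.Agent.BSpi.PSLn
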