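import Pool.Agent.BSpi.PSLn.Good

set_option autoImplicit false

open Matrix Matrix.SpecialLinearGroup

namespace Pool.Agent.BSpi

variable {π : Set ℕ}

lemma conj_injective_congr {S T : Type} [Group S] [Group T] (e : S ≃* T)
    (h : Function.Injective (MulAut.conj : S →* MulAut S)) :
    Function.Injective (MulAut.conj : T →* MulAut T) := by
  intro a b hab
  apply e.symm.injective
  apply h
  ext t
  rw [MulAut.conj_apply, MulAut.conj_apply]
  apply e.injective
  rw [map_mul, map_mul, map_mul, map_mul, map_inv, map_inv, e.apply_symm_apply,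
    e.apply_symm_apply]
  exact congrArg (fun f : MulAut T => f (e t)) hab

/-- The simple groups `PSL(n, F)` over finite fields are good at all odd primes. -/
lemma psl_all_goodAt {S : Type} [Group S] (hS : IsSimpleGroup S) (hna : ∃ a b : S, a * b ≠ b * a)
    {r : ℕ} (hr : r.Prime) (hr2 : r ≠ 2) (n : ℕ) (F : Type) [Field F] [Finite F]
    (e : S ≃* Matrix.ProjectiveSpecialLinearGroup (Fin n) F) : GoodAt π r S := by
  have hinj := conj_injective_congr e (conj_injective_of_simple hS hna)
  by_cases h3 : 3 ≤ n
  · exact (PSLn.psln_goodAt (by rw [Fintype.card_fin]; exact h3) hinj hr hr2).congr e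
  by_cases h2 : n = 2
  · subst h2
    exact (PSL.psl_goodAt hinj hr hr2).congr e
  · exfalso
    have hsub : Subsingleton (Fin n) := Fin.subsingleton_iff_le_one.2 (by omega)
    obtain ⟨a, b, hab⟩ := hna
    apply hab
    apply e.injective
    rw [map_mul, map_mul]
    obtain ⟨A, hA⟩ := PSLn.mk_surjective (e a)
    obtain ⟨B, hB⟩ := PSLn.mk_surjective (e b)
    rw [← hA, ← hB, Subsingleton.elim A 1, map_one, one_mul, mul_one]

end Pool.Agent.BSpi
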