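import Pool.Agent.BSpi.PSLn.Pair

set_option autoImplicit false
set_option linter.unusedSimpArgs false
set_option linter.unusedSectionVars false
set_option linter.unusedVariables false

open Matrix Matrix.SpecialLinearGroup
open scoped MatrixGroups

namespace Pool.Agent.BSpi.PSLn

variable {ι F : Type} [Fintype ι] [DecidableEq ι] [Field F] {π : Set ℕ}

/-- Orders of the elements `f(s) s⁻¹` for bad automorphisms `f`. -/
lemma bad_order (hinj : Function.Injective (MulAut.conj : Pn ι F →* MulAut (Pn ι F)))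
    {f : MulAut (Pn ι F)} (hbad : BadAut π (Pn ι F) f) {g : GL ι F} {σ : F ≃+* F}
    (hR : Rep f g σ) (s : Matrix.SpecialLinearGroup ι F) (q : ℕ) (hq : q.Prime)
    (hqd : q ∣ orderOf (mk (cj g (fr σ s) * s⁻¹))) : q ∈ π := by
  have h1 := hbad (mk s)
  have h2 : f * (MulAut.conj (mk s) * f * (MulAut.conj (mk s))⁻¹)⁻¹ =
      MulAut.conj (mk (cj g (fr σ s) * s⁻¹)) := by
    have h3 : f * MulAut.conj (mk s) = MulAut.conj (f (mk s)) * f := by
      ext x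
      rw [MulAut.mul_apply, MulAut.mul_apply, MulAut.conj_apply, MulAut.conj_apply, map_mul,
        map_mul, map_inv]
    rw [map_mul, map_inv, ← hR, map_mul, map_inv, _root_.mul_inv_rev, _root_.mul_inv_rev,
      _root_.inv_inv, ← mul_assoc, ← mul_assoc, h3, mul_inv_cancel_right]
  have h4 : MulAut.conj (mk (cj g (fr σ s) * s⁻¹)) ∈
      Subgroup.closure {f, MulAut.conj (mk s) * f * (MulAut.conj (mk s))⁻¹} := by
    rw [← h2]
    exact mul_mem (left_mem _ _) (inv_mem (right_mem _ _))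
  refine h1.orderOf h4 q hq ?_
  rw [orderOf_injective (MulAut.conj : Pn ι F →* MulAut (Pn ι F)) hinj]
  exact hqd

lemma frv_inv (σ : F ≃+* F) (v : ι → F) : frv σ (frv σ⁻¹ v) = v := by
  funext i
  change σ (σ⁻¹ (v i)) = v i
  exact σ.apply_symm_apply (v i)

/-- The case of three independent vectors. -/
lemma case_N {g : GL ι F} {σ : F ≃+* F} {v χ : ι → F} (hind : Ind v (g.1 *ᵥ frv σ v))
    (h1 : χ ⬝ᵥ v = 0) (h2 : χ ⬝ᵥ (g.1 *ᵥ frv σ v) = 0) (h3 : χ ⬝ᵥ frv σ⁻¹ ((g⁻¹).1 *ᵥ v) = 1)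
    (a : F) : ∃ s : Matrix.SpecialLinearGroup ι F, ∃ M : SL(2, F), M.1 = !![1 - a, 1; -a, 1] ∧
      orderOf (PSL.mk M) ∣ orderOf (mk (cj g (fr σ s) * s⁻¹)) := by
  obtain ⟨ξ, hξ1, hξ2⟩ := dual2 hind 0 1
  set v' := g.1 *ᵥ frv σ v with hv'
  set v'' := frv σ⁻¹ ((g⁻¹).1 *ᵥ v) with hv''
  set φ := a • ξ + (1 - a * (ξ ⬝ᵥ v'')) • χ with hφ
  have e1 : φ ⬝ᵥ v = 0 := by
    simp only [hφ, add_dotProduct, smul_dotProduct, hξ1, h1, smul_eq_mul]
    ring
  have e2 : φ ⬝ᵥ v' = a := by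
    simp only [hφ, add_dotProduct, smul_dotProduct, hξ2, h2, smul_eq_mul]
    ring
  have e3 : φ ⬝ᵥ v'' = 1 := by
    simp only [hφ, add_dotProduct, smul_dotProduct, h3, smul_eq_mul]
    ring
  have e1' : frv σ φ ⬝ᵥ frv σ v = 0 := by rw [frv_dot, e1, map_zero]
  set φ' := frv σ φ ᵥ* (g⁻¹).1 with hφ'
  have e4 : φ' ⬝ᵥ v' = 0 := dot_conj' e1' g
  have e5 : φ' ⬝ᵥ v = 1 := by
    rw [hφ', ← dotProduct_mulVec, ← frv_inv σ ((g⁻¹).1 *ᵥ v), frv_dot, ← hv'', e3, map_one]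
  have e6 : (-φ) ⬝ᵥ v = 0 := by rw [neg_dotProduct, e1, neg_zero]
  have hx : cj g (fr σ (tv v φ)) * (tv v φ)⁻¹ = tv v' φ' * tv v (-φ) := by
    rw [fr_tv e1, cj_tv e1', tv_inv e1]
  refine ⟨tv v φ, ⟨!![1 - a, 1; -a, 1], by rw [det_fin_two_of]; ring⟩, rfl, ?_⟩
  rw [hx]
  obtain ⟨V, hV⟩ := exists_left hind.symm
  refine order_restrict hV ?_
  change (tv v' φ' * tv v (-φ)).1 * col2 v' v = col2 v' v * !![1 - a, 1; -a, 1]
  rw [mul_col2, col2_mul, Matrix.SpecialLinearGroup.coe_mul, ← mulVec_mulVec, ← mulVec_mulVec,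
    tv_mulVec e6, tv_mulVec e6, tv_mulVec e4, tv_mulVec e4]
  congr 1
  · rw [dotProduct_add, dotProduct_smul, neg_dotProduct, e2, e4, e5]
    change v' + (-a) • v + (0 + (-a) • 1) • v' = (1 - a) • v' + (-a) • v
    rw [smul_eq_mul, mul_one, zero_add, sub_smul, one_smul, neg_smul, neg_smul]
    abel
  · rw [dotProduct_add, dotProduct_smul, neg_dotProduct, e1, e5]
    change v + (-0 : F) • v + (1 + (-0 : F) • 1) • v' = (1 : F) • v' + (1 : F) • v
    rw [neg_zero, zero_smul, zero_smul, add_zero, add_zero, one_smul, one_smul]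
    abel

/-- The case of an invariant plane. -/
lemma case_W [Finite F] (hι : 3 ≤ Fintype.card ι) {g : GL ι F} {v : ι → F}
    (hind : Ind v (g.1 *ᵥ v)) {t d : F} (hd : d ≠ 0)
    (h : g.1 *ᵥ (g.1 *ᵥ v) = (-d) • v + t • (g.1 *ᵥ v)) (c : F) (hc : c ≠ 2) :
    ∃ s : Matrix.SpecialLinearGroup ι F, ∃ M : SL(2, F), M 0 0 + M 1 1 = c ∧
      orderOf (PSL.mk M) ∣ orderOf (mk (cj g (fr 1 s) * s⁻¹)) := by
  obtain ⟨γ, M, hM, hMc⟩ := comm_trace t d hd c hc
  obtain ⟨s, hs⟩ := exists_ext hι hind γ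
  refine ⟨s, M, hMc, ?_⟩
  obtain ⟨V, hV⟩ := exists_left hind
  refine order_restrict hV ?_
  set U := col2 v (g.1 *ᵥ v) with hU
  set T := PSL.gl 0 (-d) 1 t (by simpa using hd) with hT
  have hgU : g.1 * U = U * T.1 := by
    rw [hU, mul_col2, col2_mul]
    congr 1
    · change _ = (0 : F) • v + (1 : F) • (g.1 *ᵥ v)
      rw [zero_smul, zero_add, one_smul]
  have hgU' : (g⁻¹).1 * U = U * (T⁻¹).1 := by
    have h1 : (g⁻¹).1 * (g.1 * U) * (T⁻¹).1 = (g⁻¹).1 * (U * T.1) * (T⁻¹).1 := by rw [hgU]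
    rw [← Matrix.mul_assoc, gl_inv_mul, Matrix.one_mul, Matrix.mul_assoc (g⁻¹).1,
      Matrix.mul_assoc U, gl_mul_inv, Matrix.mul_one] at h1
    exact h1.symm
  have hsU' : (s⁻¹).1 * U = U * (γ⁻¹).1 := by
    have h1 : (s⁻¹).1 * (s.1 * U) * (γ⁻¹).1 = (s⁻¹).1 * (U * γ.1) * (γ⁻¹).1 := by rw [hs]
    rw [← Matrix.mul_assoc, inv_mul_val, Matrix.one_mul, Matrix.mul_assoc (s⁻¹).1,
      Matrix.mul_assoc U, gl_mul_inv, Matrix.mul_one] at h1
    exact h1.symm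
  rw [fr_one, Matrix.SpecialLinearGroup.coe_mul, cj_val, hM]
  simp only [Units.val_mul, Matrix.mul_assoc]
  rw [hsU', ← Matrix.mul_assoc (g⁻¹).1, hgU', Matrix.mul_assoc U, ← Matrix.mul_assoc s.1, hs,
    Matrix.mul_assoc U, ← Matrix.mul_assoc g.1, hgU]
  simp only [Matrix.mul_assoc]

/-- The characteristic, in the case of an invariant plane. -/
lemma case_W_char [Finite F] (p : ℕ) [hp : Fact p.Prime] [CharP F p] (hι : 3 ≤ Fintype.card ι)
    {g : GL ι F} {σ : F ≃+* F} {v : ι → F} (hind : Ind v (g.1 *ᵥ frv σ v)) {a b : F}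
    (h : frv σ⁻¹ ((g⁻¹).1 *ᵥ v) = a • v + b • (g.1 *ᵥ frv σ v)) :
    ∃ s : Matrix.SpecialLinearGroup ι F, p ∣ orderOf (mk (cj g (fr σ s) * s⁻¹)) := by
  set v' := g.1 *ᵥ frv σ v with hv'
  set v'' := frv σ⁻¹ ((g⁻¹).1 *ᵥ v) with hv''
  obtain ⟨φ, hφ0, h1, h2⟩ := exists_ker2 hι v v'
  rw [dotProduct_comm] at h1 h2
  have e3 : φ ⬝ᵥ v'' = 0 := by
    rw [h, dotProduct_add, dotProduct_smul, dotProduct_smul, h1, h2, smul_zero, smul_zero, add_zero]
  have e1' : frv σ φ ⬝ᵥ frv σ v = 0 := by rw [frv_dot, h1, map_zero]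
  set φ' := frv σ φ ᵥ* (g⁻¹).1 with hφ'
  have e4 : φ' ⬝ᵥ v' = 0 := dot_conj' e1' g
  have e5 : φ' ⬝ᵥ v = 0 := by
    rw [hφ', ← dotProduct_mulVec, ← frv_inv σ ((g⁻¹).1 *ᵥ v), frv_dot, ← hv'', e3, map_zero]
  have e6 : (-φ) ⬝ᵥ v = 0 := by rw [neg_dotProduct, h1, neg_zero]
  have hx : cj g (fr σ (tv v φ)) * (tv v φ)⁻¹ = tv v' φ' * tv v (-φ) := by
    rw [fr_tv h1, cj_tv e1', tv_inv h1]
  have hcomm : Commute (tv v' φ') (tv v (-φ)) := by
    have h3 : tv v' φ' * tv v (-φ) * (tv v' φ')⁻¹ = tv v (-φ) := by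
      rw [tv_conj e6, tv_mulVec e4, vecMul_tv_inv e4, e5, zero_smul, add_zero, neg_dotProduct, h2,
        neg_zero, zero_smul, sub_zero]
    exact mul_inv_eq_iff_eq_mul.1 h3
  refine ⟨tv v φ, ?_⟩
  have h3 : mk (cj g (fr σ (tv v φ)) * (tv v φ)⁻¹) ^ p = 1 := by
    rw [← map_pow, hx, hcomm.mul_pow, tv_pow_p p e4, tv_pow_p p e6, one_mul, map_one]
  have h4 : mk (cj g (fr σ (tv v φ)) * (tv v φ)⁻¹) ≠ 1 := by
    intro h0
    rw [fr_tv h1, cj_tv e1', map_mul, map_inv, mul_inv_eq_one] at h0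
    have h5 := tv_inj e4 h1 (mk_tv_inj hι e4 h1 h0)
    obtain ⟨c, hc, h6, -⟩ := vmv_eq hind.ne_left hφ0 h5.symm
    rw [h6] at hind
    exact not_ind_smul v c hind
  rw [orderOf_eq_prime h3 h4]

lemma ind_add {i j : ι} (hij : i ≠ j) {a b c d : F} (h : a * d - b * c ≠ 0) :
    Ind (a • ev i + b • ev j : ι → F) (c • ev i + d • ev j) := by
  refine ⟨i, j, ?_⟩
  simp only [ev, Pi.add_apply, Pi.smul_apply, Pi.single_eq_same, smul_eq_mul, mul_one,
    Pi.single_eq_of_ne hij, Pi.single_eq_of_ne hij.symm, mul_zero, add_zero, zero_add]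
  intro h0
  apply h
  linear_combination h0

/-- Semilinear maps fixing all points. -/
lemma all_fixed (hι : 3 ≤ Fintype.card ι) {g : GL ι F} {σ : F ≃+* F}
    (h : ∀ v : ι → F, v ≠ 0 → ¬ Ind v (g.1 *ᵥ frv σ v)) : σ = 1 ∧ ∃ c : F, c ≠ 0 ∧
      g.1 = c • (1 : Matrix ι ι F) := by
  have h1 : ∀ v : ι → F, v ≠ 0 → ∃ c : F, g.1 *ᵥ frv σ v = c • v := fun v hv =>
    par_of_not_ind hv (h v hv)
  have hfe : ∀ i : ι, frv σ (ev i : ι → F) = ev i := by
    intro i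
    funext k
    rw [frv, ev, Pi.single_apply]
    by_cases hk : k = i
    · rw [if_pos hk, map_one]
    · rw [if_neg hk, map_zero]
  have h2 : ∀ i : ι, ∃ c : F, g.1 *ᵥ ev i = c • ev i := by
    intro i
    obtain ⟨c, hc⟩ := h1 (ev i) (ev_ne i)
    rw [hfe] at hc
    exact ⟨c, hc⟩
  choose c hc using h2
  have hpair : ∀ i j : ι, i ≠ j → ∀ a : F, c i = c j ∧ (c i * σ a = c i * a) := by
    intro i j hij a
    have key : ∀ a : F, c j * σ a = c i * a := by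
      intro a
      have hne : (ev i + a • ev j : ι → F) ≠ 0 := by
        intro h0
        have h3 := congrFun h0 i
        simp [ev, hij] at h3
      obtain ⟨e, he⟩ := h1 _ hne
      have h3 : frv σ (ev i + a • ev j : ι → F) = ev i + σ a • ev j := by
        funext k
        have h4 := congrFun (hfe i) k
        have h5 := congrFun (hfe j) k
        rw [frv] at h4 h5
        rw [frv, Pi.add_apply, Pi.smul_apply, smul_eq_mul, map_add, map_mul, h4, h5]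
        rfl
      rw [h3, mulVec_add, mulVec_smul, hc, hc] at he
      have h4 := congrFun he i
      have h5 := congrFun he j
      simp only [ev, Pi.add_apply, Pi.smul_apply, Pi.single_eq_same, smul_eq_mul, mul_one,
        Pi.single_eq_of_ne hij, Pi.single_eq_of_ne hij.symm, mul_zero, add_zero, zero_add] at h4 h5
      rw [h4]
      linear_combination h5
    have h6 := key 1
    rw [map_one, mul_one, mul_one] at h6
    exact ⟨h6.symm, by rw [← key a, h6]⟩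
  obtain ⟨o⟩ : Nonempty ι := Fintype.card_pos_iff.1 (by omega)
  have hco : ∀ i, c i = c o := by
    intro i
    by_cases hi : i = o
    · rw [hi]
    · exact (hpair i o hi 1).1
  have hg : g.1 = c o • (1 : Matrix ι ι F) := by
    ext i j
    have h3 := congrFun (hc j) i
    rw [ev, mulVec_single_one, hco j] at h3
    rw [Matrix.smul_apply, smul_eq_mul, Matrix.one_apply]
    have h4 : g.1 i j = (c o • (Pi.single j 1 : ι → F)) i := h3
    rw [h4, Pi.smul_apply, smul_eq_mul, Pi.single_apply]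
  have hc0 : c o ≠ 0 := by
    intro h0
    rw [h0, zero_smul] at hg
    have h3 := gl_mul_inv g
    rw [hg, zero_mul] at h3
    have h4 := congrFun (congrFun h3 o) o
    rw [Matrix.zero_apply, Matrix.one_apply_eq] at h4
    exact zero_ne_one h4
  refine ⟨?_, c o, hc0, hg⟩
  obtain ⟨i, hi, -⟩ := third hι o o
  ext a
  have h3 := (hpair o i hi.symm a).2
  exact mul_left_cancel₀ hc0 h3

lemma kernel (hι : 3 ≤ Fintype.card ι) {g : GL ι F} {σ : F ≃+* F} (h : Rep 1 g σ) :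
    σ = 1 ∧ ∃ c : F, c ≠ 0 ∧ g.1 = c • (1 : Matrix ι ι F) := by
  refine all_fixed hι fun v hv hind => ?_
  obtain ⟨φ, hφ0, h1, -⟩ := exists_ker2 hι v v
  rw [dotProduct_comm] at h1
  have h2 := h (tv v φ)
  have e1' : frv σ φ ⬝ᵥ frv σ v = 0 := by rw [frv_dot, h1, map_zero]
  rw [MulAut.one_apply, fr_tv h1, cj_tv e1'] at h2
  have h3 := dot_conj' e1' g
  have h5 := tv_inj h1 h3 (mk_tv_inj hι h1 h3 h2)
  obtain ⟨c, hc, h6, -⟩ := vmv_eq hv hφ0 h5
  rw [h6] at hind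
  exact not_ind_smul v c hind

end Pool.Agent.BSpi.PSLn
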