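import Pool.Agent.BSpi.PSLn.Types

set_option autoImplicit false
set_option linter.unusedSimpArgs false
set_option linter.unusedSectionVars false
set_option linter.unusedVariables false

open Matrix Matrix.SpecialLinearGroup

namespace Pool.Agent.BSpi.PSLn

variable {ι F : Type} [Fintype ι] [DecidableEq ι] [Field F]

/-- Conjugation by an invertible matrix. -/
def cj (g : GL ι F) (A : Matrix.SpecialLinearGroup ι F) : Matrix.SpecialLinearGroup ι F :=
  ⟨g.1 * A.1 * (g⁻¹).1, by rw [det_units_conj]; exact A.2⟩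

/-- Field automorphisms acting on matrices of determinant one. -/
def fr (σ : F ≃+* F) (A : Matrix.SpecialLinearGroup ι F) : Matrix.SpecialLinearGroup ι F :=
  Matrix.SpecialLinearGroup.map (σ : F →+* F) A

/-- Field automorphisms acting on invertible matrices. -/
def frG (σ : F ≃+* F) (g : GL ι F) : GL ι F :=
  Matrix.GeneralLinearGroup.map (σ : F →+* F) g

/-- Field automorphisms acting on vectors. -/
def frv (σ : F ≃+* F) (v : ι → F) : ι → F := fun i => σ (v i)

lemma cj_val (g : GL ι F) (A : Matrix.SpecialLinearGroup ι F) :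
    (cj g A).1 = g.1 * A.1 * (g⁻¹).1 := rfl

lemma fr_val (σ : F ≃+* F) (A : Matrix.SpecialLinearGroup ι F) :
    (fr σ A).1 = (σ : F →+* F).mapMatrix A.1 := rfl

lemma frG_val (σ : F ≃+* F) (g : GL ι F) : (frG σ g).1 = (σ : F →+* F).mapMatrix g.1 := rfl

lemma frG_mulhom (σ : F ≃+* F) (g h : GL ι F) : frG σ (g * h) = frG σ g * frG σ h := map_mul _ _ _

lemma frG_inv (σ : F ≃+* F) (g : GL ι F) : frG σ g⁻¹ = (frG σ g)⁻¹ := map_inv _ _

lemma frG_one_right (σ : F ≃+* F) : frG σ (1 : GL ι F) = 1 := map_one _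

lemma frG_one (g : GL ι F) : frG 1 g = g := by
  apply Units.ext
  rw [frG_val]
  ext i j
  rfl

lemma fr_one (A : Matrix.SpecialLinearGroup ι F) : fr 1 A = A := by
  apply coe_inj
  rw [fr_val]
  ext i j
  rfl

lemma frG_mul (σ τ : F ≃+* F) (g : GL ι F) : frG (σ * τ) g = frG σ (frG τ g) := by
  apply Units.ext
  rw [frG_val, frG_val, frG_val]
  ext i j
  rfl

lemma fr_mul (σ τ : F ≃+* F) (A : Matrix.SpecialLinearGroup ι F) :
    fr (σ * τ) A = fr σ (fr τ A) := by
  apply coe_inj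
  rw [fr_val, fr_val, fr_val]
  ext i j
  rfl

lemma cj_mul (g h : GL ι F) (A : Matrix.SpecialLinearGroup ι F) : cj (g * h) A = cj g (cj h A) := by
  apply coe_inj
  rw [cj_val, cj_val, cj_val, _root_.mul_inv_rev, Units.val_mul, Units.val_mul]
  simp only [mul_assoc]

lemma cj_one (A : Matrix.SpecialLinearGroup ι F) : cj 1 A = A := by
  apply coe_inj
  rw [cj_val, inv_one, Units.val_one, one_mul, mul_one]

lemma fr_cj (σ : F ≃+* F) (g : GL ι F) (A : Matrix.SpecialLinearGroup ι F) :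
    fr σ (cj g A) = cj (frG σ g) (fr σ A) := by
  apply coe_inj
  rw [cj_val, ← frG_inv, frG_val, frG_val]
  change (σ : F →+* F).mapMatrix (g.1 * A.1 * (g⁻¹).1) = _
  rw [map_mul, map_mul]
  rfl

lemma gl_inv_mul (g : GL ι F) : (g⁻¹).1 * g.1 = 1 := by
  rw [← Units.val_mul, inv_mul_cancel, Units.val_one]

lemma gl_mul_inv (g : GL ι F) : g.1 * (g⁻¹).1 = 1 := by
  rw [← Units.val_mul, mul_inv_cancel, Units.val_one]

lemma cj_hom (g : GL ι F) (A B : Matrix.SpecialLinearGroup ι F) :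
    cj g (A * B) = cj g A * cj g B := by
  apply coe_inj
  rw [Matrix.SpecialLinearGroup.coe_mul, cj_val, cj_val, cj_val, Matrix.SpecialLinearGroup.coe_mul]
  calc g.1 * (A.1 * B.1) * (g⁻¹).1 = g.1 * A.1 * 1 * (B.1 * (g⁻¹).1) := by
        simp only [mul_assoc, one_mul, mul_one]
    _ = g.1 * A.1 * ((g⁻¹).1 * g.1) * (B.1 * (g⁻¹).1) := by rw [gl_inv_mul]
    _ = _ := by simp only [mul_assoc]

lemma fr_hom (σ : F ≃+* F) (A B : Matrix.SpecialLinearGroup ι F) :
    fr σ (A * B) = fr σ A * fr σ B := map_mul _ _ _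

lemma cj_of {g : GL ι F} {A B : Matrix.SpecialLinearGroup ι F} (h : g.1 * A.1 = B.1 * g.1) :
    cj g A = B := by
  apply coe_inj
  rw [cj_val, h, mul_assoc, gl_mul_inv, mul_one]

lemma cj_eq {g : GL ι F} {A B : Matrix.SpecialLinearGroup ι F} (h : cj g A = B) :
    g.1 * A.1 = B.1 * g.1 := by
  rw [← h, cj_val, mul_assoc, gl_inv_mul, mul_one]

lemma cj_smul {g h : GL ι F} {c : F} (hg : g.1 = c • h.1) (A : Matrix.SpecialLinearGroup ι F) :
    cj g A = cj h A := by
  apply cj_of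
  rw [hg, Matrix.smul_mul, Matrix.mul_smul, cj_eq (rfl : cj h A = cj h A)]

/-- The automorphism `f` of `PSL` is given by the matrix `g` and the field automorphism `σ`. -/
def Rep (f : MulAut (Pn ι F)) (g : GL ι F) (σ : F ≃+* F) : Prop :=
  ∀ A : Matrix.SpecialLinearGroup ι F, f (mk A) = mk (cj g (fr σ A))

lemma Rep.mul {f f' : MulAut (Pn ι F)} {g g' : GL ι F} {σ σ' : F ≃+* F} (h : Rep f g σ)
    (h' : Rep f' g' σ') : Rep (f * f') (g * frG σ g') (σ * σ') := by
  intro A
  rw [MulAut.mul_apply, h', h, fr_cj, cj_mul, fr_mul]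

lemma Rep.one : Rep (1 : MulAut (Pn ι F)) 1 1 := by
  intro A
  rw [MulAut.one_apply, fr_one, cj_one]

/-- The twisted powers of a matrix. -/
def nrm (σ : F ≃+* F) (g : GL ι F) : ℕ → GL ι F
  | 0 => 1
  | k + 1 => nrm σ g k * frG (σ ^ k) g

lemma Rep.pow {f : MulAut (Pn ι F)} {g : GL ι F} {σ : F ≃+* F} (h : Rep f g σ) (k : ℕ) :
    Rep (f ^ k) (nrm σ g k) (σ ^ k) := by
  induction k with
  | zero => rw [pow_zero, pow_zero]; exact Rep.one
  | succ k ih => rw [pow_succ, pow_succ]; exact ih.mul h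

lemma nrm_succ' (σ : F ≃+* F) (g : GL ι F) (k : ℕ) :
    nrm σ g (k + 1) = g * frG σ (nrm σ g k) := by
  induction k with
  | zero =>
    change 1 * frG (σ ^ 0) g = g * frG σ 1
    rw [pow_zero, frG_one, frG_one_right, one_mul, mul_one]
  | succ k ih =>
    have h1 : nrm σ g (k + 1 + 1) = nrm σ g (k + 1) * frG (σ ^ (k + 1)) g := rfl
    have h2 : nrm σ g (k + 1) = nrm σ g k * frG (σ ^ k) g := rfl
    rw [h1]
    nth_rw 1 [ih]
    rw [h2, frG_mulhom, mul_assoc, pow_succ', frG_mul]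

lemma dot_conj' {v φ : ι → F} (h : φ ⬝ᵥ v = 0) (g : GL ι F) :
    (φ ᵥ* (g⁻¹).1) ⬝ᵥ (g.1 *ᵥ v) = 0 := by
  rw [← dotProduct_mulVec, mulVec_mulVec, gl_inv_mul, one_mulVec, h]

lemma cj_tv {v φ : ι → F} (h : φ ⬝ᵥ v = 0) (g : GL ι F) :
    cj g (tv v φ) = tv (g.1 *ᵥ v) (φ ᵥ* (g⁻¹).1) := by
  apply coe_inj
  rw [cj_val, tv_val h, tv_val (dot_conj' h g), mul_add, add_mul, mul_one, gl_mul_inv,
    mul_vecMulVec, vecMulVec_mul]

lemma frv_dot (σ : F ≃+* F) (v φ : ι → F) : frv σ φ ⬝ᵥ frv σ v = σ (φ ⬝ᵥ v) := by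
  rw [dotProduct, dotProduct, map_sum]
  refine Finset.sum_congr rfl fun i _ => ?_
  rw [map_mul]
  rfl

lemma fr_tv {v φ : ι → F} (h : φ ⬝ᵥ v = 0) (σ : F ≃+* F) :
    fr σ (tv v φ) = tv (frv σ v) (frv σ φ) := by
  apply coe_inj
  rw [fr_val, tv_val h, tv_val (by rw [frv_dot, h, map_zero]), map_add, map_one]
  congr 1
  ext i j
  change σ (v i * φ j) = σ (v i) * σ (φ j)
  rw [map_mul]

/-- The basis vectors. -/
def ev (i : ι) : ι → F := Pi.single i 1

lemma ev_ne (i : ι) : (ev i : ι → F) ≠ 0 := by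
  intro h
  have := congrFun h i
  simp [ev] at this

lemma ev_dot (i j : ι) : (ev j : ι → F) ⬝ᵥ ev i = if i = j then 1 else 0 := by
  rw [ev, single_dotProduct, ev, one_mul, Pi.single_apply]
  congr 1
  exact propext eq_comm

lemma ev_dot_ne {i j : ι} (h : i ≠ j) : (ev j : ι → F) ⬝ᵥ ev i = 0 := by
  rw [ev_dot, if_neg h]

lemma ev_dot_ne' {i j : ι} (h : i ≠ j) (a : F) : (a • ev j : ι → F) ⬝ᵥ ev i = 0 := by
  rw [smul_dotProduct, ev_dot_ne h, smul_zero]

lemma comm_tv {v w φ ψ : ι → F} (h : φ ⬝ᵥ v = 0) (h' : ψ ⬝ᵥ w = 0) (h'' : ψ ⬝ᵥ v = 0) :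
    tv v φ * tv w ψ * (tv v φ)⁻¹ * (tv w ψ)⁻¹ = tv v ((φ ⬝ᵥ w) • ψ) := by
  rw [tv_conj h', tv_mulVec h, vecMul_tv_inv h, h'', zero_smul, sub_zero, add_comm,
    tv_mul_left (by rw [dotProduct_smul, h'', smul_zero]) h', mul_inv_cancel_right, tv_smul]

lemma transv_eq {i j : ι} (hij : i ≠ j) (c : F) :
    Matrix.SpecialLinearGroup.transvection hij c = tv (ev i) (c • ev j) := by
  apply coe_inj
  rw [Matrix.SpecialLinearGroup.transvection_coe, tv_val (ev_dot_ne' hij c)]
  congr 1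
  ext k l
  rw [vecMulVec_apply, Pi.smul_apply, smul_eq_mul, ev, ev, single_apply, Pi.single_apply,
    Pi.single_apply]
  by_cases h1 : i = k
  · by_cases h2 : j = l
    · simp [h1, h2]
    · simp [h1, h2, Ne.symm h2]
  · simp [h1, Ne.symm h1]

lemma mulVec_ext {A B : Matrix.SpecialLinearGroup ι F} (h : ∀ x : ι → F, A.1 *ᵥ x = B.1 *ᵥ x) :
    A = B := by
  apply coe_inj
  ext i j
  have h1 := congrFun (h (Pi.single j 1)) i
  simpa using h1

lemma diag_eq {i j : ι} (hij : i ≠ j) {c : F} (hc : c ≠ 0) :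
    diag2n hij c hc = tv (ev i) (c • ev j) * tv (ev j) ((-c⁻¹) • ev i) * tv (ev i) (c • ev j) *
      (tv (ev i) ((-1 : F) • ev j) * tv (ev j) ((1 : F) • ev i) * tv (ev i) ((-1 : F) • ev j)) := by
  apply mulVec_ext
  intro x
  simp only [Matrix.SpecialLinearGroup.coe_mul, ← mulVec_mulVec]
  rw [tv_mulVec (ev_dot_ne' hij _), tv_mulVec (ev_dot_ne' hij.symm _), tv_mulVec (ev_dot_ne' hij _),
    tv_mulVec (ev_dot_ne' hij _), tv_mulVec (ev_dot_ne' hij.symm _), tv_mulVec (ev_dot_ne' hij _)]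
  have hd : ∀ (k : ι) (a : F) (y : ι → F), (a • ev k : ι → F) ⬝ᵥ y = a * y k := by
    intro k a y
    rw [smul_dotProduct, ev, single_dotProduct, one_mul, smul_eq_mul]
  simp only [hd]
  rw [diag2n_coe]
  funext k
  rw [mulVec_diagonal]
  by_cases hki : k = i
  · subst hki
    simp [ev, hij, hij.symm]
    field_simp
    ring
  · by_cases hkj : k = j
    · subst hkj
      simp [ev, hki, Ne.symm hki]
      field_simp
      ring
    · simp [ev, hki, hkj]

/-- Generation by elementary transvections. -/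
lemma gen [Nontrivial ι] (Q : Matrix.SpecialLinearGroup ι F → Prop)
    (ht : ∀ (i j : ι) (_ : i ≠ j) (c : F), Q (tv (ev i) (c • ev j)))
    (hm : ∀ A B, Q A → Q B → Q (A * B)) (A : Matrix.SpecialLinearGroup ι F) : Q A := by
  refine diagonal_transvection_induction' Q A (fun i j hij c hc => ?_) (fun i j hij c => ?_) hm
  · rw [diag_eq hij hc]
    exact hm _ _ (hm _ _ (hm _ _ (ht i j hij _) (ht j i hij.symm _)) (ht i j hij _))
      (hm _ _ (hm _ _ (ht i j hij _) (ht j i hij.symm _)) (ht i j hij _))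
  · rw [transv_eq]
    exact ht i j hij c

omit [DecidableEq ι] in
lemma third (hι : 3 ≤ Fintype.card ι) (i j : ι) : ∃ k, k ≠ i ∧ k ≠ j := by
  classical
  by_contra hcon
  push Not at hcon
  have h1 : (Finset.univ : Finset ι) ⊆ {i, j} := by
    intro k _
    rw [Finset.mem_insert, Finset.mem_singleton]
    by_cases hk : k = i
    · exact Or.inl hk
    · exact Or.inr (hcon k hk)
  have h2 := Finset.card_le_card h1
  have h3 := Finset.card_le_two (a := i) (b := j)
  rw [Finset.card_univ] at h2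
  omega

omit [DecidableEq ι] in
/-- The functional equations. -/
lemma frame_abs [Finite F] (hι : 3 ≤ Fintype.card ι) (A : ι → ι → F → F)
    (hadd : ∀ i j, i ≠ j → ∀ a b, A i j (a + b) = A i j a + A i j b)
    (hne : ∀ i j, i ≠ j → ∀ a, a ≠ 0 → A i j a ≠ 0)
    (hmul : ∀ i j k, i ≠ j → j ≠ k → i ≠ k → ∀ a b, A i k (a * b) = A i j a * A j k b) :
    ∃ (d : ι → F) (σ : F ≃+* F), (∀ i, d i ≠ 0) ∧
      ∀ i j, i ≠ j → ∀ a, A i j a = d i * σ a * (d j)⁻¹ := by
  classical
  have hne1 : ∀ i j, i ≠ j → A i j 1 ≠ 0 := fun i j h => hne i j h 1 one_ne_zero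
  obtain ⟨o⟩ : Nonempty ι := Fintype.card_pos_iff.1 (by omega)
  obtain ⟨o', ho', -⟩ := third hι o o
  have hS1 : ∀ i j k, i ≠ j → j ≠ k → i ≠ k → ∀ a, A i k a / A i k 1 = A i j a / A i j 1 := by
    intro i j k hij hjk hik a
    have h1 := hmul i j k hij hjk hik a 1
    have h2 := hmul i j k hij hjk hik 1 1
    rw [mul_one] at h1 h2
    rw [h1, h2]
    have := hne1 j k hjk
    have := hne1 i j hij
    field_simp
  have hS2 : ∀ i j k, i ≠ j → j ≠ k → i ≠ k → ∀ a, A i k a / A i k 1 = A j k a / A j k 1 := by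
    intro i j k hij hjk hik a
    have h1 := hmul i j k hij hjk hik 1 a
    have h2 := hmul i j k hij hjk hik 1 1
    rw [one_mul] at h1
    rw [mul_one] at h2
    rw [h1, h2]
    have := hne1 j k hjk
    have := hne1 i j hij
    field_simp
  have hrow : ∀ i j k, i ≠ j → i ≠ k → ∀ a, A i j a / A i j 1 = A i k a / A i k 1 := by
    intro i j k hij hik a
    by_cases hjk : j = k
    · rw [hjk]
    · exact hS1 i k j hik (Ne.symm hjk) hij a
  have hall : ∀ i j, i ≠ j → ∀ a, A i j a / A i j 1 = A o o' a / A o o' 1 := by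
    intro i j hij a
    by_cases hio : i = o
    · subst hio
      exact hrow i j o' hij ho'.symm a
    · obtain ⟨k, hki, hko⟩ := third hι i o
      rw [hrow i j k hij hki.symm, hS2 i o k hio hko.symm hki.symm, hrow o k o' hko.symm ho'.symm]
  let s : F → F := fun a => A o o' a / A o o' 1
  have hs1 : s 1 = 1 := div_self (hne1 o o' ho'.symm)
  have hsadd : ∀ a b, s (a + b) = s a + s b := by
    intro a b
    change A o o' (a + b) / _ = A o o' a / _ + A o o' b / _
    rw [hadd o o' ho'.symm, add_div]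
  have hs0 : s 0 = 0 := by
    have := hsadd 0 0
    rw [add_zero] at this
    linear_combination -this
  have hsm : ∀ a b, s (a * b) = s a * s b := by
    intro a b
    obtain ⟨k, hko, hko'⟩ := third hι o o'
    change A o o' (a * b) / A o o' 1 = A o o' a / A o o' 1 * s b
    rw [← hall o k hko.symm (a * b)]
    change _ = _ * (A o o' b / A o o' 1)
    rw [← hall o' k hko'.symm b, hmul o o' k ho'.symm hko'.symm hko.symm]
    have h2 := hmul o o' k ho'.symm hko'.symm hko.symm 1 1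
    rw [mul_one] at h2
    rw [h2, mul_div_mul_comm]
  let σ0 : F →+* F :=
    { toFun := s
      map_one' := hs1
      map_mul' := hsm
      map_zero' := hs0
      map_add' := hsadd }
  have hσ0 : Function.Bijective σ0 := Finite.injective_iff_bijective.1 σ0.injective
  let σ : F ≃+* F := RingEquiv.ofBijective σ0 hσ0
  have hσ : ∀ a, σ a = A o o' a / A o o' 1 := fun a => rfl
  let d : ι → F := fun i => if i = o then 1 else A i o 1
  have hd : ∀ i, d i ≠ 0 := by
    intro i
    by_cases hi : i = o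
    · simp only [d, if_pos hi]
      exact one_ne_zero
    · simp only [d, if_neg hi]
      exact hne1 i o hi
  have hl : ∀ i j, i ≠ j → A i j 1 = d i * (d j)⁻¹ := by
    intro i j hij
    by_cases hi : i = o
    · subst hi
      simp only [d, if_true, if_neg hij.symm]
      obtain ⟨k, hki, hkj⟩ := third hι i j
      have h1 := hmul i j k hij hkj.symm hki.symm 1 1
      have h2 := hmul j i k hij.symm hki.symm hkj.symm 1 1
      rw [mul_one] at h1 h2
      rw [h2] at h1
      have h3 := hne1 i k hki.symm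
      have h4 : A i j 1 * A j i 1 = 1 := by
        apply mul_right_cancel₀ h3
        linear_combination -h1
      rw [one_mul]
      exact eq_inv_of_mul_eq_one_left h4
    · by_cases hj : j = o
      · subst hj
        simp only [d, if_true, if_neg hi]
        rw [inv_one, mul_one]
      · simp only [d, if_neg hi, if_neg hj]
        have h1 := hmul i j o hij hj hi 1 1
        rw [mul_one] at h1
        rw [h1, mul_inv_cancel_right₀ (hne1 j o hj)]
  refine ⟨d, σ, hd, fun i j hij a => ?_⟩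
  have h1 := hall i j hij a
  rw [← hσ, div_eq_iff (hne1 i j hij), hl i j hij] at h1
  rw [h1]
  ring

end Pool.Agent.BSpi.PSLn
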