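import Pool.Agent.BSpi.PSLn.Bad

set_option autoImplicit false
set_option linter.unusedSimpArgs false
set_option linter.unusedSectionVars false
set_option linter.unusedVariables false

open Matrix Matrix.SpecialLinearGroup
open scoped MatrixGroups

namespace Pool.Agent.BSpi.PSLn

variable {ι F : Type} [Fintype ι] [DecidableEq ι] [Field F] {π : Set ℕ}

lemma frv_add (σ : F ≃+* F) (x y : ι → F) : frv σ (x + y) = frv σ x + frv σ y := by
  funext i
  exact map_add σ _ _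

lemma frv_smul (σ : F ≃+* F) (a : F) (x : ι → F) : frv σ (a • x) = σ a • frv σ x := by
  funext i
  exact map_mul σ _ _

lemma frv_zero (σ : F ≃+* F) : frv σ (0 : ι → F) = 0 := by
  funext i
  exact map_zero σ

lemma frv_mulVec (σ : F ≃+* F) (g : GL ι F) (x : ι → F) :
    frv σ (g.1 *ᵥ x) = (frG σ g).1 *ᵥ frv σ x := by
  funext i
  change σ (∑ j, g.1 i j * x j) = ∑ j, (frG σ g).1 i j * frv σ x j
  rw [map_sum]
  refine Finset.sum_congr rfl fun j _ => ?_
  rw [map_mul]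
  rfl

lemma frv_mul (σ τ : F ≃+* F) (x : ι → F) : frv (σ * τ) x = frv σ (frv τ x) := rfl

lemma frv_one (x : ι → F) : frv 1 x = x := rfl

/-- The semilinear map attached to a matrix, a field automorphism and a scalar. -/
def semi (g : GL ι F) (σ : F ≃+* F) (ν : F) : (ι → F) →+ (ι → F) where
  toFun x := ν • (g.1 *ᵥ frv σ x)
  map_zero' := by rw [frv_zero, mulVec_zero, smul_zero]
  map_add' x y := by rw [frv_add, mulVec_add, smul_add]

lemma semi_apply (g : GL ι F) (σ : F ≃+* F) (ν : F) (x : ι → F) :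
    semi g σ ν x = ν • (g.1 *ᵥ frv σ x) := rfl

lemma semi_smul (g : GL ι F) (σ : F ≃+* F) (ν c : F) (x : ι → F) :
    semi g σ ν (c • x) = σ c • semi g σ ν x := by
  rw [semi_apply, semi_apply, frv_smul, mulVec_smul, smul_comm]

lemma semi_iterate (g : GL ι F) (σ : F ≃+* F) (ν : F) (k : ℕ) :
    ∀ x : ι → F, (semi g σ ν)^[k] x = PSL.nm σ ν k • ((nrm σ g k).1 *ᵥ frv (σ ^ k) x) := by
  induction k with
  | zero =>
    intro x
    rw [Function.iterate_zero, id_eq, pow_zero, frv_one]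
    change x = PSL.nm σ ν 0 • ((1 : Matrix ι ι F) *ᵥ x)
    rw [one_mulVec, PSL.nm, Finset.range_zero, Finset.prod_empty, one_smul]
  | succ k ih =>
    intro x
    rw [Function.iterate_succ_apply, ih, semi_apply, frv_smul, mulVec_smul, frv_mulVec,
      mulVec_mulVec, ← frv_mul, ← pow_succ, smul_smul, ← PSL.nm_succ]
    rfl

/-- The scalar in the twisted power is fixed. -/
lemma fixed_of_scalar {g : GL ι F} {σ : F ≃+* F} {r : ℕ} [Nonempty ι] (h1 : σ ^ r = 1) {c : F}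
    (hc : (nrm σ g r).1 = c • (1 : Matrix ι ι F)) : σ c = c := by
  have h2 : g * frG σ (nrm σ g r) = nrm σ g r * g := by
    rw [← nrm_succ']
    change nrm σ g r * frG (σ ^ r) g = _
    rw [h1, frG_one]
  have h3 := congrArg Units.val h2
  rw [Units.val_mul, Units.val_mul, frG_val, hc] at h3
  have h4 : (σ : F →+* F).mapMatrix (c • (1 : Matrix ι ι F)) = σ c • (1 : Matrix ι ι F) := by
    ext i j
    change σ ((c • (1 : Matrix ι ι F)) i j) = (σ c • (1 : Matrix ι ι F)) i j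
    rw [Matrix.smul_apply, Matrix.smul_apply, smul_eq_mul, smul_eq_mul, map_mul, Matrix.one_apply]
    by_cases hij : i = j
    · rw [if_pos hij, map_one]
    · rw [if_neg hij, map_zero]
  rw [h4, Matrix.mul_smul, Matrix.smul_mul, mul_one, one_mul] at h3
  have h5 : g.1 ≠ 0 := by
    intro h0
    have h6 := gl_mul_inv g
    rw [h0, zero_mul] at h6
    obtain ⟨i⟩ := (inferInstance : Nonempty ι)
    have h7 := congrFun (congrFun h6 i) i
    rw [Matrix.zero_apply, Matrix.one_apply_eq] at h7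
    exact zero_ne_one h7
  exact smul_left_injective F h5 h3

/-- Semilinear maps have noncollinear orbits. -/
lemma find_v [Finite F] (hι : 3 ≤ Fintype.card ι) {g : GL ι F} {σ : F ≃+* F} {r : ℕ}
    (hr : r.Prime) (hr2 : r ≠ 2) (h1 : σ ^ r = 1) (hσ : σ ≠ 1) {c : F} (hc0 : c ≠ 0)
    (hc : (nrm σ g r).1 = c • (1 : Matrix ι ι F)) :
    ∃ v χ : ι → F, Ind v (g.1 *ᵥ frv σ v) ∧ χ ⬝ᵥ v = 0 ∧ χ ⬝ᵥ (g.1 *ᵥ frv σ v) = 0 ∧
      χ ⬝ᵥ frv σ⁻¹ ((g⁻¹).1 *ᵥ v) = 1 := by
  have hne : Nonempty ι := Fintype.card_pos_iff.1 (by omega)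
  have hfix := fixed_of_scalar h1 hc
  obtain ⟨ν, hν, hνN⟩ := PSL.nm_surj hr h1 hσ (inv_ne_zero hc0) (by rw [map_inv₀, hfix])
  have hTr : ∀ x, (semi g σ ν)^[r] x = x := by
    intro x
    rw [semi_iterate, hνN, h1, frv_one, hc, smul_mulVec, one_mulVec, smul_smul,
      inv_mul_cancel₀ hc0, one_smul]
  have hspan := PSL.fixed_span (V := ι → F) hr h1 hσ (semi g σ ν)
    (fun a x => semi_smul g σ ν a x) hTr
  have hfixed : ∀ φ : ι → F, φ ≠ 0 → ∃ w, semi g σ ν w = w ∧ φ ⬝ᵥ w ≠ 0 := by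
    intro φ hφ
    by_contra hcon
    push Not at hcon
    obtain ⟨i, hi⟩ := exists_ne hφ
    let L : (ι → F) →ₗ[F] F :=
      { toFun := fun x => φ ⬝ᵥ x
        map_add' := fun x y => dotProduct_add _ _ _
        map_smul' := fun a x => dotProduct_smul _ _ _ }
    have h2 := hspan L (fun x hx => hcon x hx) (Pi.single i 1)
    change φ ⬝ᵥ (Pi.single i 1) = 0 at h2
    rw [dotProduct_single, mul_one] at h2
    exact hi h2
  obtain ⟨i⟩ := hne
  obtain ⟨w1, hw1, hφ1⟩ := hfixed (ev i) (ev_ne i)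
  obtain ⟨φ2, hφ20, hφ2, -⟩ := exists_ker2 hι w1 w1
  obtain ⟨w2, hw2, hφ22⟩ := hfixed φ2 hφ20
  obtain ⟨φ3, hφ30, hφ31, hφ32⟩ := exists_ker2 hι w1 w2
  obtain ⟨w3, hw3, hφ33⟩ := hfixed φ3 hφ30
  rw [dotProduct_comm] at hφ2 hφ31 hφ32
  have hcoord : ∀ a1 a2 a3 b1 b2 b3 : F, a1 • w1 + a2 • w2 + a3 • w3 =
      b1 • w1 + b2 • w2 + b3 • w3 → a1 = b1 ∧ a2 = b2 ∧ a3 = b3 := by
    intro a1 a2 a3 b1 b2 b3 h
    have e3 := congrArg (fun z => φ3 ⬝ᵥ z) h
    simp only [dotProduct_add, dotProduct_smul, hφ31, hφ32, smul_eq_mul, mul_zero, zero_add] at e3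
    have f3 := mul_right_cancel₀ hφ33 e3
    have e2 := congrArg (fun z => φ2 ⬝ᵥ z) h
    simp only [dotProduct_add, dotProduct_smul, hφ2, smul_eq_mul, mul_zero, zero_add, f3] at e2
    have f2 := mul_right_cancel₀ hφ22 (add_right_cancel e2)
    have e1 := congrArg (fun z => (ev i : ι → F) ⬝ᵥ z) h
    simp only [dotProduct_add, dotProduct_smul, smul_eq_mul, f3, f2] at e1
    exact ⟨mul_right_cancel₀ hφ1 (add_right_cancel (add_right_cancel e1)), f2, f3⟩
  obtain ⟨x, hx⟩ : ∃ x, σ x ≠ x := by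
    by_contra hcon
    push Not at hcon
    exact hσ (RingEquiv.ext hcon)
  set y := σ⁻¹ x with hy
  set z := σ x with hz
  have hσy : σ y = x := σ.apply_symm_apply x
  have hyx : y ≠ x := by
    intro h
    apply hx
    rw [hz]
    nth_rewrite 1 [← h]
    exact hσy
  have hyz : y ≠ z := by
    intro h
    apply hx
    obtain ⟨m, hm⟩ := hr.odd_of_ne_two hr2
    have h2 : (σ ^ 2) x = x := by
      rw [pow_two]
      change σ (σ x) = x
      rw [← hz, ← h, hσy]
    have h3 : ∀ k : ℕ, (σ ^ (2 * k)) x = x := by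
      intro k
      induction k with
      | zero => rfl
      | succ k ih =>
        have h4 : 2 * (k + 1) = 2 * k + 2 := by ring
        rw [h4, pow_add]
        change (σ ^ (2 * k)) ((σ ^ 2) x) = x
        rw [h2, ih]
    have h4 : (σ ^ r) x = σ x := by
      rw [hm, pow_succ']
      change σ ((σ ^ (2 * m)) x) = σ x
      rw [h3]
    rw [h1] at h4
    exact h4.symm
  set v := w1 + x • w2 + (x * x) • w3 with hv
  have hsv : ∀ a : F, semi g σ ν (w1 + a • w2 + (a * a) • w3) =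
      w1 + σ a • w2 + (σ a * σ a) • w3 := by
    intro a
    rw [map_add, map_add, semi_smul, semi_smul, hw1, hw2, hw3, map_mul]
  set v' := g.1 *ᵥ frv σ v with hv'
  have hvv' : ν • v' = w1 + z • w2 + (z * z) • w3 := hsv x
  set v'' := frv σ⁻¹ ((g⁻¹).1 *ᵥ v) with hv''
  have hσν : σ⁻¹ ν ≠ 0 := (map_ne_zero_iff _ (σ⁻¹ : F ≃+* F).injective).2 hν
  have hvv'' : v'' = σ⁻¹ ν • (w1 + y • w2 + (y * y) • w3) := by
    have h2 := hsv y
    rw [hσy] at h2
    have h3 : g.1 *ᵥ frv σ v'' = v := by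
      rw [hv'', frv_inv, mulVec_mulVec, gl_mul_inv, one_mulVec]
    have h4 : g.1 *ᵥ frv σ (σ⁻¹ ν • (w1 + y • w2 + (y * y) • w3)) = v := by
      rw [frv_smul, mulVec_smul]
      have h5 : σ (σ⁻¹ ν) = ν := σ.apply_symm_apply ν
      rw [h5]
      exact h2
    have h5 : frv σ v'' = frv σ (σ⁻¹ ν • (w1 + y • w2 + (y * y) • w3)) := by
      have h6 := congrArg (fun u => (g⁻¹).1 *ᵥ u) (h3.trans h4.symm)
      simp only [mulVec_mulVec, gl_inv_mul, one_mulVec] at h6
      exact h6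
    funext j
    exact σ.injective (congrFun h5 j)
  have hv0 : v ≠ 0 := by
    intro h0
    have h2 := hcoord 1 x (x * x) 0 0 0 (by rw [one_smul, ← hv, h0]; simp)
    exact one_ne_zero h2.1
  have hind : Ind v v' := by
    by_contra hcon
    obtain ⟨e, he⟩ := par_of_not_ind hv0 hcon
    rw [he, smul_smul] at hvv'
    have h2 := hcoord (ν * e) (ν * e * x) (ν * e * (x * x)) 1 z (z * z) (by
      rw [one_smul, ← hvv', hv, smul_add, smul_add, smul_smul, smul_smul])
    rw [h2.1, one_mul] at h2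
    exact hx h2.2.1.symm
  rcases dichotomy (u := v'') hind with ⟨χ, h2, h3, h4⟩ | ⟨a, b, hab⟩
  · exact ⟨v, χ, hind, h2, h3, h4⟩
  · exfalso
    have hb : b • v' = (b * ν⁻¹) • (w1 + z • w2 + (z * z) • w3) := by
      rw [← hvv', smul_smul, mul_assoc, inv_mul_cancel₀ hν, mul_one]
    rw [hb, hvv''] at hab
    set e := b * ν⁻¹ with he
    set f := σ⁻¹ ν with hf
    have h2 := hcoord f (f * y) (f * (y * y)) (a + e) (a * x + e * z) (a * (x * x) + e * (z * z)) (by
      have h3 : f • w1 + (f * y) • w2 + (f * (y * y)) • w3 = f • (w1 + y • w2 + (y * y) • w3) := by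
        rw [smul_add, smul_add, smul_smul, smul_smul]
      rw [h3, hab, hv]
      simp only [smul_add, add_smul, smul_smul]
      abel)
    obtain ⟨e1, e2, e3⟩ := h2
    have h5 : e * ((z - y) * (z - x)) = 0 := by
      linear_combination -e3 + (x + y) * e2 - x * y * e1
    have h6 : e = 0 := (mul_eq_zero.1 h5).resolve_right
      (mul_ne_zero (sub_ne_zero.2 hyz.symm) (sub_ne_zero.2 hx))
    rw [h6, add_zero] at e1
    rw [h6, e1, zero_mul, add_zero] at e2
    have h7 : a * (y - x) = 0 := by linear_combination e2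
    have h8 : a = 0 := (mul_eq_zero.1 h7).resolve_right (sub_ne_zero.2 hyx)
    exact hσν (e1.trans h8)

/-- Bad automorphisms of odd prime order. -/
lemma primes_of_bad [Finite F] (p : ℕ) [hp : Fact p.Prime] [CharP F p]
    (hι : 3 ≤ Fintype.card ι) (hinj : Function.Injective (MulAut.conj : Pn ι F →* MulAut (Pn ι F)))
    {f : MulAut (Pn ι F)} {r : ℕ} (hr : r.Prime) (hr2 : r ≠ 2) (hfr : orderOf f = r)
    (hbad : BadAut π (Pn ι F) f) :
    p ∈ π ∧ ∀ ℓ : ℕ, ℓ.Prime → ℓ ∣ Nat.card SL(2, F) → ℓ ∈ π := by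
  obtain ⟨m, hm⟩ := hr.odd_of_ne_two hr2
  have hf1 : f ^ r = 1 := by rw [← hfr]; exact pow_orderOf_eq_one f
  have hTP : TP f := TP_odd hι (m := m) (by rw [← hm]; exact hf1)
  obtain ⟨g, σ, hR⟩ := hTP.rep hι
  have hk := hR.pow r
  rw [hf1] at hk
  obtain ⟨h1, c, hc0, hc⟩ := kernel hι hk
  -- it is enough to find commutators with prescribed traces
  suffices h : (∃ s : Matrix.SpecialLinearGroup ι F, p ∣ orderOf (mk (cj g (fr σ s) * s⁻¹))) ∧
      ∀ c : F, c ≠ 2 → ∃ s : Matrix.SpecialLinearGroup ι F, ∃ M : SL(2, F), M 0 0 + M 1 1 = c ∧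
        orderOf (PSL.mk M) ∣ orderOf (mk (cj g (fr σ s) * s⁻¹)) by
    obtain ⟨⟨s, hs⟩, h2⟩ := h
    refine ⟨bad_order hinj hbad hR s p hp.out hs, fun ℓ hℓ hℓd => ?_⟩
    by_cases hℓp : ℓ = p
    · rw [hℓp]
      exact bad_order hinj hbad hR s p hp.out hs
    have := Fact.mk hℓ
    obtain ⟨X, hX⟩ := exists_prime_orderOf_dvd_card' ℓ hℓd
    obtain ⟨c, hc2, hcM⟩ := order_of_trace p hℓ hℓp X hX
    obtain ⟨s, M, hMc, hMd⟩ := h2 c hc2
    rw [hcM M hMc] at hMd
    exact bad_order hinj hbad hR s ℓ hℓ hMd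
  have hN : ∀ v χ : ι → F, Ind v (g.1 *ᵥ frv σ v) → χ ⬝ᵥ v = 0 → χ ⬝ᵥ (g.1 *ᵥ frv σ v) = 0 →
      χ ⬝ᵥ frv σ⁻¹ ((g⁻¹).1 *ᵥ v) = 1 →
      (∃ s : Matrix.SpecialLinearGroup ι F, p ∣ orderOf (mk (cj g (fr σ s) * s⁻¹))) ∧
      ∀ c : F, c ≠ 2 → ∃ s : Matrix.SpecialLinearGroup ι F, ∃ M : SL(2, F), M 0 0 + M 1 1 = c ∧
        orderOf (PSL.mk M) ∣ orderOf (mk (cj g (fr σ s) * s⁻¹)) := by
    intro v χ hind h2 h3 h4
    constructor
    · obtain ⟨s, M, hM, hMd⟩ := case_N hind h2 h3 h4 0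
      refine ⟨s, ?_⟩
      have h5 : orderOf (PSL.mk M) = p := by
        have h6 : M 0 0 + M 1 1 = 2 := by
          rw [hM]
          change (1 - 0 : F) + 1 = 2
          norm_num
        refine orderOf_eq_prime ?_ ?_
        · rw [← map_pow, PSL.unip_pow p h6, map_one]
        · apply PSL.mk_ne_one
          rw [hM]
          exact one_ne_zero
      rw [h5] at hMd
      exact hMd
    · intro c _
      obtain ⟨s, M, hM, hMd⟩ := case_N hind h2 h3 h4 (2 - c)
      refine ⟨s, M, ?_, hMd⟩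
      rw [hM]
      change (1 - (2 - c) : F) + 1 = c
      ring
  by_cases hσ : σ = 1
  · subst hσ
    obtain ⟨v, hv, hind⟩ : ∃ v : ι → F, v ≠ 0 ∧ Ind v (g.1 *ᵥ frv 1 v) := by
      by_contra hcon
      push Not at hcon
      obtain ⟨-, e, -, he⟩ := all_fixed hι hcon
      have h2 : f = 1 := by
        ext x
        obtain ⟨A, rfl⟩ := mk_surjective x
        rw [hR, MulAut.one_apply, fr_one, cj_smul (h := 1) he, cj_one]
      rw [h2, orderOf_one] at hfr
      exact hr.one_lt.ne hfr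
    rcases dichotomy (u := frv (1 : F ≃+* F)⁻¹ ((g⁻¹).1 *ᵥ v)) hind with ⟨χ, h2, h3, h4⟩ |
      ⟨a, b, hab⟩
    · exact hN v χ hind h2 h3 h4
    · refine ⟨case_W_char p hι hind hab, fun c hc => ?_⟩
      rw [frv_one] at hind
      have hab' : (g⁻¹).1 *ᵥ v = a • v + b • (g.1 *ᵥ v) := hab
      have hv1 : v = a • (g.1 *ᵥ v) + b • (g.1 *ᵥ (g.1 *ᵥ v)) := by
        have h2 := congrArg (fun u => g.1 *ᵥ u) hab'
        simp only [mulVec_mulVec, gl_mul_inv, one_mulVec, mulVec_add, mulVec_smul] at h2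
        rw [mulVec_mulVec]
        exact h2
      have hb : b ≠ 0 := by
        rintro rfl
        rw [zero_smul, add_zero] at hv1
        have h2 : ¬ Ind (g.1 *ᵥ v) v := by
          nth_rewrite 2 [hv1]
          exact not_ind_smul _ _
        exact h2 hind.symm
      have h2 : g.1 *ᵥ (g.1 *ᵥ v) = (-(-b⁻¹)) • v + (-(b⁻¹ * a)) • (g.1 *ᵥ v) := by
        have h3 := congrArg (fun u => b⁻¹ • u) hv1
        simp only [smul_add, smul_smul, inv_mul_cancel₀ hb, one_smul] at h3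
        rw [neg_neg, h3, neg_smul]
        abel
      exact case_W hι hind (neg_ne_zero.2 (inv_ne_zero hb)) h2 c hc
  · obtain ⟨v, χ, hind, h2, h3, h4⟩ := find_v hι hr hr2 h1 hσ hc0 hc
    exact hN v χ hind h2 h3 h4

/-- The groups `PSL(n, F)` with `n ≥ 3` are good. -/
theorem psln_goodAt [Finite F] (hι : 3 ≤ Fintype.card ι)
    (hinj : Function.Injective (MulAut.conj : Pn ι F →* MulAut (Pn ι F))) {r : ℕ} (hr : r.Prime)
    (hr2 : r ≠ 2) : GoodAt π r (Pn ι F) := by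
  obtain ⟨p, hp, hcp⟩ : ∃ p : ℕ, Fact p.Prime ∧ CharP F p := by
    have hne : ringChar F ≠ 0 := by
      intro h0
      have : CharZero F := (CharP.ringChar_zero_iff_CharZero F).1 h0
      exact not_finite F
    have : NeZero (ringChar F) := ⟨hne⟩
    exact ⟨ringChar F, CharP.char_is_prime_of_pos F (ringChar F), inferInstance⟩
  by_cases h : ∃ f : MulAut (Pn ι F), orderOf f = r ∧ BadAut π _ f
  · obtain ⟨f, hfr, hf⟩ := h
    obtain ⟨hpπ, hπ⟩ := primes_of_bad p hι hinj hr hr2 hfr hf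
    obtain ⟨o⟩ : Nonempty ι := Fintype.card_pos_iff.1 (by omega)
    obtain ⟨o', ho', -⟩ := third hι o o
    have hT : isT (mk (tv (ev o) (ev o')) : Pn ι F) :=
      ⟨ev o, ev o', ev_ne o, ev_ne o', ev_dot_ne ho'.symm, rfl⟩
    refine Or.inl ⟨mk (tv (ev o) (ev o')), mk_tv_ne_one hι (ev_ne o) (ev_ne o')
      (ev_dot_ne ho'.symm), fun β => pair_isPi p hpπ hπ hT (hT.map hι β)⟩
  · push Not at h
    exact Or.inr fun f _ hf _ hfb _ => absurd hfb (h f hf)

end Pool.Agent.BSpi.PSLn
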