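import Pool.Agent.BSpi.PSL.Defining

set_option autoImplicit false
set_option linter.unusedSimpArgs false
set_option linter.unusedSectionVars false

open Matrix Matrix.SpecialLinearGroup

namespace Pool.Agent.BSpi.PSLn

variable {ι F : Type} [Fintype ι] [DecidableEq ι] [Field F]

/-- The group `PSL(ι, F)`. -/
abbrev Pn (ι F : Type) [Fintype ι] [DecidableEq ι] [Field F] : Type :=
  Matrix.ProjectiveSpecialLinearGroup ι F

/-- The projection. -/
def mk : Matrix.SpecialLinearGroup ι F →* Pn ι F := QuotientGroup.mk' _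

lemma mk_surjective : Function.Surjective (mk : Matrix.SpecialLinearGroup ι F →* Pn ι F) :=
  QuotientGroup.mk'_surjective _

lemma coe_inj {A B : Matrix.SpecialLinearGroup ι F} (h : A.1 = B.1) : A = B := Subtype.ext h

lemma mk_eq_iff {A B : Matrix.SpecialLinearGroup ι F} :
    mk A = mk B ↔ ∃ r : F, A.1 = r • B.1 ∧ r ^ Fintype.card ι = 1 := by
  have h1 : mk B = mk A ↔ B⁻¹ * A ∈ Subgroup.center (Matrix.SpecialLinearGroup ι F) := QuotientGroup.eq
  rw [eq_comm, h1, Matrix.SpecialLinearGroup.mem_center_iff]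
  have hBB : B.1 * (B⁻¹).1 = 1 := by
    rw [← Matrix.SpecialLinearGroup.coe_mul, mul_inv_cancel]; rfl
  have hBB' : (B⁻¹).1 * B.1 = 1 := by
    rw [← Matrix.SpecialLinearGroup.coe_mul, inv_mul_cancel]; rfl
  constructor
  · rintro ⟨r, hr, h⟩
    refine ⟨r, ?_, hr⟩
    have h2 : A.1 = B.1 * ((B⁻¹ * A : Matrix.SpecialLinearGroup ι F)).1 := by
      rw [Matrix.SpecialLinearGroup.coe_mul, ← mul_assoc, hBB, one_mul]
    rw [h2, ← h, scalar_apply, ← smul_one_eq_diagonal, Matrix.mul_smul, mul_one]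
  · rintro ⟨r, h, hr⟩
    refine ⟨r, hr, ?_⟩
    rw [Matrix.SpecialLinearGroup.coe_mul, h, Matrix.mul_smul, hBB', scalar_apply, smul_one_eq_diagonal]

lemma mk_eq_smul {A B : Matrix.SpecialLinearGroup ι F} [Nonempty ι] (h : mk A = mk B) :
    ∃ r : F, r ≠ 0 ∧ A.1 = r • B.1 := by
  obtain ⟨r, h1, h2⟩ := mk_eq_iff.1 h
  refine ⟨r, ?_, h1⟩
  rintro rfl
  rw [zero_pow Fintype.card_ne_zero] at h2
  exact zero_ne_one h2

lemma mk_eq_of_smul {A B : Matrix.SpecialLinearGroup ι F} {r : F} (h : A.1 = r • B.1) : mk A = mk B := by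
  refine mk_eq_iff.2 ⟨r, h, ?_⟩
  have h1 := A.2
  rw [h, Matrix.det_smul, B.2, mul_one] at h1
  exact h1

lemma det_tv (v φ : ι → F) : det (1 + vecMulVec v φ) = 1 + φ ⬝ᵥ v := by
  rw [vecMulVec_eq Unit, det_one_add_replicateCol_mul_replicateRow]

/-- Auxiliary definition of transvections. -/
def tv0 (v φ : ι → F) (h : φ ⬝ᵥ v = 0) : Matrix.SpecialLinearGroup ι F :=
  ⟨1 + vecMulVec v φ, by rw [det_tv, h, add_zero]⟩

lemma tv0_val (v φ : ι → F) (h : φ ⬝ᵥ v = 0) : (tv0 v φ h).1 = 1 + vecMulVec v φ := rfl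

open Classical in
/-- Transvections. -/
noncomputable def tv (v φ : ι → F) : Matrix.SpecialLinearGroup ι F :=
  if h : φ ⬝ᵥ v = 0 then tv0 v φ h else 1

lemma tv_val {v φ : ι → F} (h : φ ⬝ᵥ v = 0) : (tv v φ).1 = 1 + vecMulVec v φ := by
  rw [tv, dif_pos h, tv0_val]

lemma tv_mul_right {v φ ψ : ι → F} (h : φ ⬝ᵥ v = 0) (h' : ψ ⬝ᵥ v = 0) :
    tv v (φ + ψ) = tv v φ * tv v ψ := by
  apply coe_inj
  rw [Matrix.SpecialLinearGroup.coe_mul, tv_val (by rw [add_dotProduct, h, h', add_zero]), tv_val h,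
    tv_val h', vecMulVec_add, add_mul, mul_add, mul_add, vecMulVec_mul_vecMulVec, h]
  simp only [one_mul, mul_one, zero_smul, zero_vecMulVec, vecMulVec_zero]
  abel

lemma tv_mul_left {v w φ : ι → F} (h : φ ⬝ᵥ v = 0) (h' : φ ⬝ᵥ w = 0) :
    tv (v + w) φ = tv v φ * tv w φ := by
  apply coe_inj
  rw [Matrix.SpecialLinearGroup.coe_mul, tv_val (by rw [dotProduct_add, h, h', add_zero]), tv_val h,
    tv_val h', add_vecMulVec, add_mul, mul_add, mul_add, vecMulVec_mul_vecMulVec, h']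
  simp only [one_mul, mul_one, zero_smul, zero_vecMulVec, vecMulVec_zero]
  abel

lemma inv_mul_val (A : Matrix.SpecialLinearGroup ι F) : (A⁻¹).1 * A.1 = 1 := by
  rw [← Matrix.SpecialLinearGroup.coe_mul, inv_mul_cancel]; rfl

lemma mul_inv_val (A : Matrix.SpecialLinearGroup ι F) : A.1 * (A⁻¹).1 = 1 := by
  rw [← Matrix.SpecialLinearGroup.coe_mul, mul_inv_cancel]; rfl

lemma dot_conj {v φ : ι → F} (h : φ ⬝ᵥ v = 0) (A : Matrix.SpecialLinearGroup ι F) :
    (φ ᵥ* (A⁻¹).1) ⬝ᵥ (A.1 *ᵥ v) = 0 := by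
  rw [← dotProduct_mulVec, mulVec_mulVec, inv_mul_val, one_mulVec, h]

lemma tv_conj {v φ : ι → F} (h : φ ⬝ᵥ v = 0) (A : Matrix.SpecialLinearGroup ι F) :
    A * tv v φ * A⁻¹ = tv (A.1 *ᵥ v) (φ ᵥ* (A⁻¹).1) := by
  apply coe_inj
  rw [Matrix.SpecialLinearGroup.coe_mul, Matrix.SpecialLinearGroup.coe_mul, tv_val h, tv_val (dot_conj h A),
    mul_add, add_mul, mul_one, mul_inv_val, mul_vecMulVec, vecMulVec_mul]

lemma tv_smul (c : F) (v φ : ι → F) : tv (c • v) φ = tv v (c • φ) := by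
  by_cases hc : c = 0
  · subst hc
    apply coe_inj
    rw [tv_val (by simp), tv_val (by simp)]
    simp
  by_cases h : φ ⬝ᵥ v = 0
  · apply coe_inj
    rw [tv_val (by rw [dotProduct_smul, h, smul_zero]), tv_val (by rw [smul_dotProduct, h, smul_zero]),
      smul_vecMulVec, vecMulVec_smul]
  · rw [tv, dif_neg (by rw [dotProduct_smul, smul_eq_mul]; exact mul_ne_zero hc h), tv,
      dif_neg (by rw [smul_dotProduct, smul_eq_mul]; exact mul_ne_zero hc h)]

lemma tv_zero_right (v : ι → F) : tv v 0 = 1 := by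
  apply coe_inj
  rw [tv_val (by simp)]
  simp

lemma tv_zero_left (φ : ι → F) : tv 0 φ = 1 := by
  apply coe_inj
  rw [tv_val (by simp)]
  simp

lemma tv_inv {v φ : ι → F} (h : φ ⬝ᵥ v = 0) : (tv v φ)⁻¹ = tv v (-φ) := by
  rw [inv_eq_iff_mul_eq_one, ← tv_mul_right h (by rw [neg_dotProduct, h, neg_zero]),
    add_neg_cancel, tv_zero_right]

lemma tv_inj {v w φ ψ : ι → F} (h : φ ⬝ᵥ v = 0) (h' : ψ ⬝ᵥ w = 0) (he : tv v φ = tv w ψ) :
    vecMulVec v φ = vecMulVec w ψ := by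
  have h1 := congrArg Subtype.val he
  rw [tv_val h, tv_val h'] at h1
  exact add_left_cancel h1

omit [Fintype ι] [DecidableEq ι] in
lemma exists_ne {v : ι → F} (hv : v ≠ 0) : ∃ i, v i ≠ 0 := by
  by_contra h
  push Not at h
  exact hv (funext h)

omit [Fintype ι] [DecidableEq ι] in
lemma vmv_right {v φ ψ : ι → F} (hv : v ≠ 0) (h : vecMulVec v φ = vecMulVec v ψ) : φ = ψ := by
  obtain ⟨i, hi⟩ := exists_ne hv
  funext j
  have h1 := congrFun (congrFun h i) j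
  rw [vecMulVec_apply, vecMulVec_apply] at h1
  exact mul_left_cancel₀ hi h1

omit [Fintype ι] [DecidableEq ι] in
lemma vmv_eq {v w φ ψ : ι → F} (hv : v ≠ 0) (hφ : φ ≠ 0) (h : vecMulVec v φ = vecMulVec w ψ) :
    ∃ c : F, c ≠ 0 ∧ w = c • v ∧ φ = c • ψ := by
  obtain ⟨i, hi⟩ := exists_ne hv
  obtain ⟨j, hj⟩ := exists_ne hφ
  have h1 : ∀ i j, v i * φ j = w i * ψ j := fun i j => by
    have h1 := congrFun (congrFun h i) j
    rwa [vecMulVec_apply, vecMulVec_apply] at h1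
  have hij : w i * ψ j ≠ 0 := by rw [← h1]; exact mul_ne_zero hi hj
  have hψj : ψ j ≠ 0 := right_ne_zero_of_mul hij
  have hwi : w i ≠ 0 := left_ne_zero_of_mul hij
  have hw : w = (φ j / ψ j) • v := by
    funext k
    rw [Pi.smul_apply, smul_eq_mul, div_mul_eq_mul_div, eq_div_iff hψj, ← h1, mul_comm]
  refine ⟨φ j / ψ j, div_ne_zero hj hψj, hw, ?_⟩
  apply vmv_right hv
  rw [h, vecMulVec_smul, ← smul_vecMulVec, ← hw]

/-- Linear independence of two vectors, by minors. -/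
def Ind (v w : ι → F) : Prop := ∃ i j, v i * w j - v j * w i ≠ 0

omit [Fintype ι] [DecidableEq ι] in
lemma Ind.symm {v w : ι → F} (h : Ind v w) : Ind w v := by
  obtain ⟨i, j, hij⟩ := h
  refine ⟨i, j, fun h0 => hij ?_⟩
  linear_combination -h0

omit [Fintype ι] [DecidableEq ι] in
lemma par_of_not_ind {v w : ι → F} (hv : v ≠ 0) (h : ¬ Ind v w) : ∃ c : F, w = c • v := by
  obtain ⟨i, hi⟩ := exists_ne hv
  refine ⟨w i / v i, ?_⟩
  funext j
  rw [Pi.smul_apply, smul_eq_mul, div_mul_eq_mul_div, eq_div_iff hi]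
  by_contra hne
  exact h ⟨i, j, fun h0 => hne (by linear_combination h0)⟩

omit [Fintype ι] [DecidableEq ι] in
lemma not_ind_smul (v : ι → F) (c : F) : ¬ Ind v (c • v) := by
  rintro ⟨i, j, hij⟩
  apply hij
  rw [Pi.smul_apply, Pi.smul_apply, smul_eq_mul, smul_eq_mul]
  ring

omit [Fintype ι] [DecidableEq ι] in
lemma Ind.ne_left {v w : ι → F} (h : Ind v w) : v ≠ 0 := by
  rintro rfl
  obtain ⟨i, j, hij⟩ := h
  apply hij
  simp

omit [Fintype ι] [DecidableEq ι] in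
lemma Ind.ne_right {v w : ι → F} (h : Ind v w) : w ≠ 0 := h.symm.ne_left

/-- Independent vectors have a functional with prescribed values. -/
lemma dual2 {v w : ι → F} (h : Ind v w) (a b : F) : ∃ φ : ι → F, φ ⬝ᵥ v = a ∧ φ ⬝ᵥ w = b := by
  obtain ⟨i, j, hij⟩ := h
  refine ⟨Pi.single i ((a * w j - b * v j) / (v i * w j - v j * w i)) +
    Pi.single j ((b * v i - a * w i) / (v i * w j - v j * w i)), ?_, ?_⟩
  · rw [add_dotProduct, single_dotProduct, single_dotProduct, div_mul_eq_mul_div,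
      div_mul_eq_mul_div, ← add_div, div_eq_iff hij]
    ring
  · rw [add_dotProduct, single_dotProduct, single_dotProduct, div_mul_eq_mul_div,
      div_mul_eq_mul_div, ← add_div, div_eq_iff hij]
    ring

/-- Two functionals have a common zero. -/
lemma exists_ker2 (hι : 3 ≤ Fintype.card ι) (φ ψ : ι → F) :
    ∃ y : ι → F, y ≠ 0 ∧ φ ⬝ᵥ y = 0 ∧ ψ ⬝ᵥ y = 0 := by
  let L : (ι → F) →ₗ[F] (Fin 2 → F) := Matrix.mulVecLin (Matrix.of ![φ, ψ])
  have h1 : LinearMap.ker L ≠ ⊥ := by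
    apply LinearMap.ker_ne_bot_of_finrank_lt
    rw [Module.finrank_fin_fun, Module.finrank_fintype_fun_eq_card]
    omega
  obtain ⟨y, hy, hy0⟩ := Submodule.exists_mem_ne_zero_of_ne_bot h1
  rw [LinearMap.mem_ker] at hy
  exact ⟨y, hy0, congrFun hy 0, congrFun hy 1⟩

/-- `mk` is injective on transvections. -/
lemma mk_tv_inj (hι : 3 ≤ Fintype.card ι) {v w φ ψ : ι → F} (h : φ ⬝ᵥ v = 0) (h' : ψ ⬝ᵥ w = 0)
    (he : mk (tv v φ) = mk (tv w ψ)) : tv v φ = tv w ψ := by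
  have : Nonempty ι := Fintype.card_pos_iff.1 (by omega)
  obtain ⟨r, hr0, hr⟩ := mk_eq_smul he
  obtain ⟨y, hy0, hy1, hy2⟩ := exists_ker2 hι φ ψ
  rw [tv_val h, tv_val h'] at hr
  have h1 := congrArg (fun M : Matrix ι ι F => M *ᵥ y) hr
  simp only [add_mulVec, one_mulVec, vecMulVec_mulVec, smul_mulVec, hy1, hy2] at h1
  obtain ⟨i, hi⟩ := exists_ne hy0
  have h2 := congrFun h1 i
  simp only [MulOpposite.op_zero, zero_smul, add_zero, Pi.smul_apply, smul_eq_mul] at h2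
  have hr1 : r = 1 := by
    have h3 : (r - 1) * y i = 0 := by linear_combination -h2
    exact sub_eq_zero.1 ((mul_eq_zero.1 h3).resolve_right hi)
  apply coe_inj
  rw [tv_val h, tv_val h', hr, hr1, one_smul]

/-- Products of two transvections which are transvections. -/
lemma tv_prod (hι : 3 ≤ Fintype.card ι) {v w x φ ψ χ : ι → F} (h : φ ⬝ᵥ v = 0) (h' : ψ ⬝ᵥ w = 0)
    (h'' : χ ⬝ᵥ x = 0) (he : mk (tv v φ) * mk (tv w ψ) = mk (tv x χ)) : ¬ Ind v w ∨ ¬ Ind φ ψ := by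
  have : Nonempty ι := Fintype.card_pos_iff.1 (by omega)
  rw [← map_mul] at he
  obtain ⟨r, hr0, hr⟩ := mk_eq_smul he
  rw [Matrix.SpecialLinearGroup.coe_mul, tv_val h, tv_val h', tv_val h''] at hr
  have hmul : ∀ y : ι → F, y + (ψ ⬝ᵥ y) • w + ((φ ⬝ᵥ y) + (ψ ⬝ᵥ y) * (φ ⬝ᵥ w)) • v =
      r • (y + (χ ⬝ᵥ y) • x) := by
    intro y
    have h1 := congrArg (fun M : Matrix ι ι F => M *ᵥ y) hr
    simp only [← mulVec_mulVec, add_mulVec, one_mulVec, vecMulVec_mulVec, smul_mulVec,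
      mulVec_add, op_smul_eq_smul, dotProduct_smul, smul_eq_mul] at h1
    rw [← h1, add_smul]
    abel
  obtain ⟨y, hy0, hy1, hy2⟩ := exists_ker2 hι φ ψ
  have h1 := hmul y
  rw [hy1, hy2] at h1
  simp only [zero_smul, add_zero, zero_mul, smul_add] at h1
  obtain ⟨i, hi⟩ := exists_ne hy0
  have hr1 : r = 1 := by
    by_contra hr1
    have h2 : (1 - r) • y = (r * (χ ⬝ᵥ y)) • x := by
      rw [sub_smul, one_smul, mul_smul]
      exact sub_eq_iff_eq_add'.2 h1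
    have h3 : χ ⬝ᵥ y = 0 := by
      have h4 := congrArg (fun z : ι → F => χ ⬝ᵥ z) h2
      simp only [dotProduct_smul, h'', smul_zero, smul_eq_mul, mul_zero] at h4
      exact (mul_eq_zero.1 h4).resolve_left (sub_ne_zero.2 (Ne.symm hr1))
    rw [h3, mul_zero, zero_smul] at h2
    exact hy0 ((smul_eq_zero.1 h2).resolve_left (sub_ne_zero.2 (Ne.symm hr1)))
  rw [hr1] at hmul
  by_contra hcon
  push Not at hcon
  obtain ⟨hvw, hφψ⟩ := hcon
  obtain ⟨y1, hy11, hy12⟩ := dual2 hφψ 1 0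
  obtain ⟨y2, hy21, hy22⟩ := dual2 hφψ (-(φ ⬝ᵥ w)) 1
  rw [dotProduct_comm] at hy11 hy12 hy21 hy22
  have e1 := hmul y1
  have e2 := hmul y2
  rw [hy11, hy12] at e1
  rw [hy21, hy22] at e2
  simp only [zero_smul, add_zero, zero_mul, one_smul, one_mul, neg_add_cancel] at e1 e2
  have f1 : v = (χ ⬝ᵥ y1) • x := add_left_cancel e1
  have f2 : w = (χ ⬝ᵥ y2) • x := add_left_cancel e2
  obtain ⟨i, j, hij⟩ := hvw
  apply hij
  rw [f1, f2]
  simp only [Pi.smul_apply, smul_eq_mul]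
  ring

end Pool.Agent.BSpi.PSLn
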