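import Pool.Agent.BSpi.PSLn.Frame

set_option autoImplicit false
set_option linter.unusedSimpArgs false
set_option linter.unusedSectionVars false
set_option linter.unusedVariables false

open Matrix Matrix.SpecialLinearGroup

namespace Pool.Agent.BSpi.PSLn

variable {ι F : Type} [Fintype ι] [DecidableEq ι] [Field F] [Finite F]

lemma meet_form (hι : 3 ≤ Fintype.card ι) {v ψ : ι → F} (hv : v ≠ 0) {x : Pn ι F}
    (h1 : x ∈ PV v) (h2 : x ∈ PH ψ) : ∃ c : F, (c • ψ) ⬝ᵥ v = 0 ∧ x = mk (tv v (c • ψ)) := by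
  obtain ⟨φ, hφ, rfl⟩ := mem_PV.1 h1
  by_cases hφ0 : φ = 0
  · subst hφ0
    exact ⟨0, by simp, by rw [zero_smul]⟩
  obtain ⟨w, hw, he⟩ := mem_PH.1 h2
  obtain ⟨c, hc, -, h4⟩ := vmv_eq hv hφ0 (tv_inj hφ hw (mk_tv_inj hι hφ hw he))
  exact ⟨c, h4 ▸ hφ, by rw [h4]⟩

/-- Type preserving automorphisms are given by matrices and field automorphisms. -/
lemma TP.rep (hι : 3 ≤ Fintype.card ι) {f : MulAut (Pn ι F)} (hf : TP f) :
    ∃ (g : GL ι F) (σ : F ≃+* F), Rep f g σ := by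
  have hnt : Nontrivial ι := Fintype.one_lt_card_iff_nontrivial.1 (by omega)
  have h1 : ∀ i : ι, ∃ v : ι → F, v ≠ 0 ∧ im f (PV (ev i)) = PV v := fun i => hf _ (ev_ne i)
  have h2 : ∀ i : ι, ∃ φ : ι → F, φ ≠ 0 ∧ im f (PH (ev i)) = PH φ := fun i => hf.hp hι (ev_ne i)
  choose v hv0 hv using h1
  choose ψ' hψ0' hψ' using h2
  have hinc : ∀ i j, i ≠ j → ψ' j ⬝ᵥ v i = 0 := by
    intro i j hij
    have hx := ev_dot_ne (F := F) hij
    have hx1 := mk_tv_ne_one hι (ev_ne i) (ev_ne j) hx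
    have h3 : f (mk (tv (ev i) (ev j))) ≠ 1 := fun h0 => hx1 (f.injective (by rw [h0, map_one]))
    exact meetVH hι (hv0 i) (hψ0' j) h3 (hv i ▸ mem_im f _ (mem_PV_tv hx))
      (hψ' j ▸ mem_im f _ (mem_PH_tv hx))
  have hdiag : ∀ i, ψ' i ⬝ᵥ v i ≠ 0 := by
    intro i h0
    have h3 : mk (tv (v i) (ψ' i)) ∈ im f (PV (ev i)) := by rw [hv i]; exact mem_PV_tv h0
    have h4 : mk (tv (v i) (ψ' i)) ∈ im f (PH (ev i)) := by rw [hψ' i]; exact mem_PH_tv h0
    obtain ⟨y, hy, hy'⟩ := h3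
    obtain ⟨z, hz, hz'⟩ := h4
    have hyz : y = z := f.injective (hy'.trans hz'.symm)
    have hy1 : y ≠ 1 := by
      rintro rfl
      have h5 : f 1 = mk (tv (v i) (ψ' i)) := hy'
      rw [map_one] at h5
      exact mk_tv_ne_one hι (hv0 i) (hψ0' i) h0 h5.symm
    have h6 := meetVH hι (ev_ne i) (ev_ne i) hy1 hy (hyz ▸ hz)
    rw [ev_dot, if_pos rfl] at h6
    exact one_ne_zero h6
  -- normalise the functionals
  obtain ⟨ψ, hψdef⟩ : ∃ ψ : ι → (ι → F), ∀ j, ψ j = (ψ' j ⬝ᵥ v j)⁻¹ • ψ' j := ⟨_, fun _ => rfl⟩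
  have hψ0 : ∀ j, ψ j ≠ 0 := fun j => by
    rw [hψdef]
    exact smul_ne_zero (inv_ne_zero (hdiag j)) (hψ0' j)
  have hψ : ∀ j, im f (PH (ev j)) = PH (ψ j) := fun j => by
    rw [hψ' j, hψdef, PH_smul (inv_ne_zero (hdiag j))]
  have hdual : ∀ i j, ψ j ⬝ᵥ v i = if i = j then 1 else 0 := by
    intro i j
    by_cases hij : i = j
    · subst hij
      rw [if_pos rfl, hψdef, smul_dotProduct, smul_eq_mul, inv_mul_cancel₀ (hdiag i)]
    · rw [if_neg hij, hψdef, smul_dotProduct, hinc i j hij, smul_zero]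
  have hdne : ∀ i j, i ≠ j → ψ j ⬝ᵥ v i = 0 := fun i j hij => by rw [hdual, if_neg hij]
  have hdne' : ∀ i j, i ≠ j → ∀ c : F, (c • ψ j) ⬝ᵥ v i = 0 := fun i j hij c => by
    rw [smul_dotProduct, hdne i j hij, smul_zero]
  have hA : ∀ i j : ι, ∀ a : F, ∃ c : F, i ≠ j → f (mk (tv (ev i) (a • ev j))) =
      mk (tv (v i) (c • ψ j)) := by
    intro i j a
    by_cases hij : i = j
    · exact ⟨0, fun h => absurd hij h⟩
    have hx := ev_dot_ne' (F := F) hij a
    have h3 : mk (tv (ev i) (a • ev j)) ∈ PH (ev j : ι → F) := by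
      rw [← tv_smul]
      exact mem_PH_tv (by rw [dotProduct_smul, ev_dot_ne hij, smul_zero])
    obtain ⟨c, -, hc⟩ := meet_form hι (hv0 i) (hv i ▸ mem_im f _ (mem_PV_tv hx))
      (hψ j ▸ mem_im f _ h3)
    exact ⟨c, fun _ => hc⟩
  choose A hA using hA
  have huniq : ∀ i j, i ≠ j → ∀ a b : F, mk (tv (v i) (a • ψ j)) = mk (tv (v i) (b • ψ j)) →
      a = b := by
    intro i j hij a b h
    have h3 := vmv_right (hv0 i) (tv_inj (hdne' i j hij a) (hdne' i j hij b)
      (mk_tv_inj hι (hdne' i j hij a) (hdne' i j hij b) h))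
    exact smul_left_injective F (hψ0 j) h3
  have hadd : ∀ i j, i ≠ j → ∀ a b, A i j (a + b) = A i j a + A i j b := by
    intro i j hij a b
    apply huniq i j hij
    rw [← hA i j _ hij, add_smul, add_smul, tv_mul_right (ev_dot_ne' hij a) (ev_dot_ne' hij b),
      tv_mul_right (hdne' i j hij _) (hdne' i j hij _), map_mul, map_mul, map_mul, hA i j _ hij,
      hA i j _ hij]
  have hne : ∀ i j, i ≠ j → ∀ a, a ≠ 0 → A i j a ≠ 0 := by
    intro i j hij a ha h0
    have h3 := hA i j a hij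
    rw [h0, zero_smul, tv_zero_right, map_one] at h3
    have h4 : mk (tv (ev i) (a • ev j)) = 1 := f.injective (by rw [h3, map_one])
    exact mk_tv_ne_one hι (ev_ne i) (smul_ne_zero ha (ev_ne j)) (ev_dot_ne' hij a) h4
  have hmul : ∀ i j k, i ≠ j → j ≠ k → i ≠ k → ∀ a b, A i k (a * b) = A i j a * A j k b := by
    intro i j k hij hjk hik a b
    apply huniq i k hik
    have h3 := comm_tv (ev_dot_ne' (F := F) hij a) (ev_dot_ne' hjk b) (ev_dot_ne' hik b)
    have h4 := comm_tv (hdne' i j hij (A i j a)) (hdne' j k hjk (A j k b))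
      (hdne' i k hik (A j k b))
    rw [smul_dotProduct, ev_dot, if_pos rfl, smul_eq_mul, mul_one, smul_smul] at h3
    rw [smul_dotProduct, hdual, if_pos rfl, smul_eq_mul, mul_one, smul_smul] at h4
    rw [← hA i k _ hik, ← h3, ← h4]
    simp only [map_mul, map_inv, hA i j _ hij, hA j k _ hjk]
  obtain ⟨d, σ, hd, hAd⟩ := frame_abs hι A hadd hne hmul
  have hinv : (Matrix.of fun j k => (d j)⁻¹ * ψ j k) * (Matrix.of fun k i => d i * v i k) = 1 := by
    ext j i
    rw [Matrix.mul_apply]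
    have h3 : ∑ k, (Matrix.of fun j k => (d j)⁻¹ * ψ j k) j k * (Matrix.of fun k i => d i * v i k) k i
        = (d j)⁻¹ * d i * (ψ j ⬝ᵥ v i) := by
      rw [dotProduct, Finset.mul_sum]
      refine Finset.sum_congr rfl fun k _ => ?_
      simp only [Matrix.of_apply]
      ring
    rw [h3, hdual, Matrix.one_apply]
    by_cases hij : i = j
    · subst hij
      simp [hd i]
    · simp [hij, Ne.symm hij]
  let g : GL ι F := ⟨Matrix.of fun k i => d i * v i k, Matrix.of fun j k => (d j)⁻¹ * ψ j k,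
    mul_eq_one_comm.1 hinv, hinv⟩
  have hg1 : ∀ i, g.1 *ᵥ ev i = d i • v i := by
    intro i
    funext k
    rw [ev, mulVec_single_one]
    rfl
  have hg2 : ∀ j, ev j ᵥ* (g⁻¹).1 = (d j)⁻¹ • ψ j := by
    intro j
    funext k
    rw [ev, single_one_vecMul]
    rfl
  have hev : ∀ i : ι, frv σ (ev i) = ev i := by
    intro i
    funext k
    rw [frv, ev, Pi.single_apply]
    by_cases hk : k = i
    · rw [if_pos hk, map_one]
    · rw [if_neg hk, map_zero]
  have hevs : ∀ (i : ι) (a : F), frv σ (a • ev i) = σ a • ev i := by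
    intro i a
    funext k
    rw [frv, Pi.smul_apply, Pi.smul_apply, smul_eq_mul, smul_eq_mul, map_mul]
    congr 1
    exact congrFun (hev i) k
  refine ⟨g, σ, ?_⟩
  apply gen
  · intro i j hij c
    rw [fr_tv (ev_dot_ne' hij c), hev, hevs, cj_tv (ev_dot_ne' hij _), hA i j c hij, hAd i j hij,
      hg1, smul_vecMul, hg2, tv_smul, smul_smul, smul_smul]
  · intro B C hB hC
    rw [map_mul, map_mul, hB, hC, fr_hom, cj_hom, map_mul]

end Pool.Agent.BSpi.PSLn
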