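import Pool.Agent.BSpi.PSLn.Lin

set_option autoImplicit false
set_option linter.unusedSimpArgs false
set_option linter.unusedSectionVars false

open Matrix Matrix.SpecialLinearGroup

namespace Pool.Agent.BSpi.PSLn

variable {ι F : Type} [Fintype ι] [DecidableEq ι] [Field F]

/-- Transvections in `PSL`. -/
def isT (x : Pn ι F) : Prop := ∃ v φ : ι → F, v ≠ 0 ∧ φ ≠ 0 ∧ φ ⬝ᵥ v = 0 ∧ x = mk (tv v φ)

/-- Nontrivial elements in the center of a maximal `p`-subgroup. -/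
def K (p : ℕ) (x : Pn ι F) : Prop := x ≠ 1 ∧ ∃ Q : Subgroup (Pn ι F), IsPGroup p Q ∧
  (∀ Q' : Subgroup (Pn ι F), IsPGroup p Q' → Q ≤ Q' → Q' = Q) ∧ x ∈ Q ∧ ∀ y ∈ Q, y * x = x * y

lemma K.map {p : ℕ} {x : Pn ι F} (h : K p x) (f : MulAut (Pn ι F)) : K p (f x) := by
  obtain ⟨hx, Q, hQ, hmax, hxQ, hc⟩ := h
  refine ⟨fun h => hx (f.injective (by rw [h, map_one])), Q.map f.toMonoidHom, hQ.map _, ?_,
    ⟨x, hxQ, rfl⟩, ?_⟩
  · intro Q' hQ' hle
    have h1 : Q'.comap f.toMonoidHom = Q := by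
      refine hmax _ ?_ ?_
      · exact hQ'.comap_of_injective _ f.injective
      · rw [← Subgroup.map_le_iff_le_comap]
        exact hle
    rw [← h1]
    exact (Subgroup.map_comap_eq_self_of_surjective f.surjective Q').symm
  · rintro _ ⟨y, hy, rfl⟩
    change f y * f x = f x * f y
    rw [← map_mul, hc y hy, map_mul]

/-- The group of transvections with center `v`. -/
def EV (v : ι → F) : Subgroup (Matrix.SpecialLinearGroup ι F) where
  carrier := {A | ∃ φ : ι → F, φ ⬝ᵥ v = 0 ∧ A = tv v φ}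
  mul_mem' := by
    rintro _ _ ⟨φ, h, rfl⟩ ⟨ψ, h', rfl⟩
    exact ⟨φ + ψ, by rw [add_dotProduct, h, h', add_zero], (tv_mul_right h h').symm⟩
  one_mem' := ⟨0, by simp, (tv_zero_right v).symm⟩
  inv_mem' := by
    rintro _ ⟨φ, h, rfl⟩
    exact ⟨-φ, by rw [neg_dotProduct, h, neg_zero], tv_inv h⟩

/-- The group of transvections with axis the kernel of `φ`. -/
def EH (φ : ι → F) : Subgroup (Matrix.SpecialLinearGroup ι F) where
  carrier := {A | ∃ v : ι → F, φ ⬝ᵥ v = 0 ∧ A = tv v φ}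
  mul_mem' := by
    rintro _ _ ⟨v, h, rfl⟩ ⟨w, h', rfl⟩
    exact ⟨v + w, by rw [dotProduct_add, h, h', add_zero], (tv_mul_left h h').symm⟩
  one_mem' := ⟨0, by simp, (tv_zero_left φ).symm⟩
  inv_mem' := by
    rintro _ ⟨v, h, rfl⟩
    refine ⟨-v, by rw [dotProduct_neg, h, neg_zero], ?_⟩
    rw [tv_inv h, ← neg_one_smul F φ, ← neg_one_smul F v, tv_smul]

lemma tv_pow {v φ : ι → F} (h : φ ⬝ᵥ v = 0) (k : ℕ) : tv v φ ^ k = tv v ((k : F) • φ) := by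
  induction k with
  | zero => rw [pow_zero, Nat.cast_zero, zero_smul, tv_zero_right]
  | succ k ih =>
    rw [pow_succ, ih, ← tv_mul_right (by rw [smul_dotProduct, h, smul_zero]) h, Nat.cast_succ,
      add_smul, one_smul]

lemma tv_pow_p (p : ℕ) [CharP F p] {v φ : ι → F} (h : φ ⬝ᵥ v = 0) : tv v φ ^ p = 1 := by
  rw [tv_pow h, CharP.cast_eq_zero, zero_smul, tv_zero_right]

lemma EV_pgroup (p : ℕ) [CharP F p] (v : ι → F) : IsPGroup p (EV v) := by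
  rintro ⟨_, φ, h, rfl⟩
  exact ⟨1, Subtype.ext (by rw [Subgroup.coe_pow, pow_one]; exact tv_pow_p p h)⟩

lemma EH_pgroup (p : ℕ) [CharP F p] (φ : ι → F) : IsPGroup p (EH φ) := by
  rintro ⟨_, v, h, rfl⟩
  exact ⟨1, Subtype.ext (by rw [Subgroup.coe_pow, pow_one]; exact tv_pow_p p h)⟩

/-- Functionals killing all of the annihilator. -/
lemma ann {e y : ι → F} (he : e ≠ 0) (h : ∀ φ : ι → F, φ ⬝ᵥ e = 0 → φ ⬝ᵥ y = 0) :
    ∃ c : F, y = c • e := by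
  apply par_of_not_ind he
  rintro ⟨i, j, hij⟩
  obtain ⟨φ, h1, h2⟩ := dual2 ⟨i, j, hij⟩ (0 : F) 1
  exact one_ne_zero (h2.symm.trans (h φ h1))

lemma tv_mulVec {v φ : ι → F} (h : φ ⬝ᵥ v = 0) (x : ι → F) :
    (tv v φ).1 *ᵥ x = x + (φ ⬝ᵥ x) • v := by
  rw [tv_val h, add_mulVec, one_mulVec, vecMulVec_mulVec, op_smul_eq_smul]

lemma vecMul_tv {v φ : ι → F} (h : φ ⬝ᵥ v = 0) (ψ : ι → F) :
    ψ ᵥ* (tv v φ).1 = ψ + (ψ ⬝ᵥ v) • φ := by
  rw [tv_val h, vecMul_add, vecMul_one, vecMul_vecMulVec]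

lemma vecMul_tv_inv {v φ : ι → F} (h : φ ⬝ᵥ v = 0) (ψ : ι → F) :
    ψ ᵥ* ((tv v φ)⁻¹).1 = ψ - (ψ ⬝ᵥ v) • φ := by
  rw [tv_inv h, vecMul_tv (by rw [neg_dotProduct, h, neg_zero]), smul_neg, sub_eq_add_neg]

variable [Finite F] {p : ℕ} [hp : Fact p.Prime] [CharP F p]

lemma fix (hι : 3 ≤ Fintype.card ι) (R : Subgroup (Matrix.SpecialLinearGroup ι F))
    (hR : IsPGroup p R) : ∃ e : ι → F, e ≠ 0 ∧ ∀ A ∈ R, A.1 *ᵥ e = e := by
  have hcard : p ∣ Nat.card (ι → F) := by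
    rw [Nat.card_fun, Nat.card_eq_fintype_card (α := ι)]
    have := Fintype.ofFinite F
    rw [Nat.card_eq_fintype_card]
    exact dvd_pow ((CharP.cast_eq_zero_iff F p _).1 (Nat.cast_card_eq_zero F)) (by omega)
  have h0 : (0 : ι → F) ∈ MulAction.fixedPoints R (ι → F) := fun x => smul_zero x
  obtain ⟨w, hw, hw0⟩ := hR.exists_fixed_point_of_prime_dvd_card_of_fixed_point _ hcard h0
  refine ⟨w, Ne.symm hw0, fun A hA => ?_⟩
  have h1 : (⟨A, hA⟩ : R) • w = w := hw ⟨A, hA⟩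
  exact h1

lemma absorb {Q : Subgroup (Pn ι F)} (hmax : ∀ Q' : Subgroup (Pn ι F), IsPGroup p Q' → Q ≤ Q' →
    Q' = Q) {R E : Subgroup (Matrix.SpecialLinearGroup ι F)} (hR : IsPGroup p R) (hRQ : R.map mk = Q)
    (hE : IsPGroup p E) (hn : ∀ A ∈ R, ∀ B ∈ E, A * B * A⁻¹ ∈ E) : E.map mk ≤ Q := by
  have h2 : IsPGroup p (R ⊔ E : Subgroup (Matrix.SpecialLinearGroup ι F)) :=
    hR.to_sup_of_normal_right' hE (Subgroup.le_normalizer_iff.2 hn)
  have h3 : (R ⊔ E).map mk = Q := hmax _ (h2.map _) (by rw [← hRQ]; exact Subgroup.map_mono le_sup_left)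
  rw [← h3]
  exact Subgroup.map_mono le_sup_right

/-- The structure of the center of a maximal `p`-subgroup. -/
lemma center_form (hι : 3 ≤ Fintype.card ι) {Q : Subgroup (Pn ι F)} (hQ : IsPGroup p Q)
    (hmax : ∀ Q' : Subgroup (Pn ι F), IsPGroup p Q' → Q ≤ Q' → Q' = Q) :
    ∃ e : ι → F, e ≠ 0 ∧ (∀ y ∈ Q, ∃ A, mk A = y ∧ A.1 *ᵥ e = e) ∧
      (∀ φ : ι → F, φ ⬝ᵥ e = 0 → mk (tv e φ) ∈ Q) ∧
      ∀ x ∈ Q, x ≠ 1 → (∀ y ∈ Q, y * x = x * y) → ∃ χ : ι → F, χ ≠ 0 ∧ χ ⬝ᵥ e = 0 ∧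
        x = mk (tv e χ) := by
  obtain ⟨R, hR, hRQ⟩ := sylow_onto hp.out mk mk_surjective Q hQ
  obtain ⟨e, he0, he⟩ := fix hι R hR
  have hE : (EV e).map mk ≤ Q := by
    refine absorb hmax hR hRQ (EV_pgroup p e) ?_
    rintro A hA _ ⟨φ, h, rfl⟩
    refine ⟨φ ᵥ* (A⁻¹).1, ?_, ?_⟩
    · have := dot_conj h A
      rwa [he A hA] at this
    · rw [tv_conj h, he A hA]
  have hE' : ∀ φ : ι → F, φ ⬝ᵥ e = 0 → mk (tv e φ) ∈ Q := fun φ h => hE ⟨_, ⟨φ, h, rfl⟩, rfl⟩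
  refine ⟨e, he0, ?_, hE', ?_⟩
  · intro y hy
    rw [← hRQ] at hy
    obtain ⟨A, hA, rfl⟩ := hy
    exact ⟨A, rfl, he A hA⟩
  · intro x hx hx1 hc
    have hx' := hx
    rw [← hRQ] at hx'
    obtain ⟨Z, hZ, rfl⟩ := hx'
    have hfix : ∀ φ : ι → F, φ ⬝ᵥ e = 0 → φ ᵥ* Z.1 = φ := by
      intro φ h
      have h1 := hc _ (hE' φ h)
      have h2 : mk (tv e φ) = mk (Z * tv e φ * Z⁻¹) := by
        rw [map_mul, map_mul, map_inv, ← h1, mul_inv_cancel_right]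
      rw [tv_conj h, he Z hZ] at h2
      have h3 : (φ ᵥ* (Z⁻¹).1) ⬝ᵥ e = 0 := by
        have := dot_conj h Z
        rwa [he Z hZ] at this
      have h4 := vmv_right he0 (tv_inj h h3 (mk_tv_inj hι h h3 h2))
      nth_rewrite 1 [h4]
      rw [vecMul_vecMul, inv_mul_val, vecMul_one]
    have hcol : ∀ j, ∃ c : F, (fun i => (Z.1 - 1) i j) = c • e := by
      intro j
      apply ann he0
      intro φ h
      have h1 := congrFun (hfix φ h) j
      have h2 : (φ ᵥ* (Z.1 - 1)) j = 0 := by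
        rw [vecMul_sub, vecMul_one, Pi.sub_apply, h1, sub_self]
      exact h2
    choose χ hχ using hcol
    have hZv : Z.1 = 1 + vecMulVec e χ := by
      ext i j
      have h1 := congrFun (hχ j) i
      rw [Matrix.sub_apply, Pi.smul_apply, smul_eq_mul] at h1
      rw [Matrix.add_apply, vecMulVec_apply]
      linear_combination h1
    have hχe : χ ⬝ᵥ e = 0 := by
      have h1 := he Z hZ
      rw [hZv, add_mulVec, one_mulVec, vecMulVec_mulVec, op_smul_eq_smul] at h1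
      have h2 : (χ ⬝ᵥ e) • e = 0 := by
        have h3 := add_left_cancel (h1.trans (add_zero e).symm)
        exact h3
      exact (smul_eq_zero.1 h2).resolve_right he0
    refine ⟨χ, ?_, hχe, ?_⟩
    · rintro rfl
      apply hx1
      have h1 : Z = 1 := by
        apply coe_inj
        rw [hZv]
        simp
      rw [h1, map_one]
    · congr 1
      apply coe_inj
      rw [hZv, tv_val hχe]

lemma isT_of_K (hι : 3 ≤ Fintype.card ι) {x : Pn ι F} (h : K p x) : isT x := by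
  obtain ⟨hx1, Q, hQ, hmax, hxQ, hc⟩ := h
  obtain ⟨e, he0, -, -, he⟩ := center_form hι hQ hmax
  obtain ⟨χ, h1, h2, h3⟩ := he x hxQ hx1 hc
  exact ⟨e, χ, he0, h1, h2, h3⟩

lemma tv_ne_one {v φ : ι → F} (hv : v ≠ 0) (hφ : φ ≠ 0) (h : φ ⬝ᵥ v = 0) : tv v φ ≠ 1 := by
  intro h1
  rw [← tv_zero_right v] at h1
  exact hφ (vmv_right hv (tv_inj h (by simp) h1))

lemma mk_tv_ne_one (hι : 3 ≤ Fintype.card ι) {v φ : ι → F} (hv : v ≠ 0) (hφ : φ ≠ 0)
    (h : φ ⬝ᵥ v = 0) : mk (tv v φ) ≠ 1 := by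
  intro h1
  rw [← map_one mk, ← tv_zero_right v] at h1
  have h2 := mk_tv_inj hι h (by simp) h1
  rw [tv_zero_right] at h2
  exact tv_ne_one hv hφ h h2

lemma K_of_isT (hι : 3 ≤ Fintype.card ι) {x : Pn ι F} (h : isT x) : K p x := by
  obtain ⟨v, φ, hv, hφ, h, rfl⟩ := h
  have hx1 : mk (tv v φ) ≠ 1 := mk_tv_ne_one hι hv hφ h
  have hH : IsPGroup p (EV v ⊔ EH φ : Subgroup (Matrix.SpecialLinearGroup ι F)) := by
    refine (EV_pgroup p v).to_sup_of_normal_right' (EH_pgroup p φ) ?_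
    have hn : ∀ A ∈ EV v, ∀ B ∈ EH φ, A * B * A⁻¹ ∈ EH φ := by
      rintro _ ⟨ψ, hψ, rfl⟩ _ ⟨w, hw, rfl⟩
      have h1 : φ ᵥ* ((tv v ψ)⁻¹).1 = φ := by
        rw [vecMul_tv_inv hψ, h, zero_smul, sub_zero]
      refine ⟨(tv v ψ).1 *ᵥ w, ?_, ?_⟩
      · have := dot_conj hw (tv v ψ)
        rwa [h1] at this
      · rw [tv_conj hw, h1]
    exact Subgroup.le_normalizer_iff.2 hn
  obtain ⟨Q, hHQ⟩ := (hH.map (mk : _ →* Pn ι F)).exists_le_sylow
  have hVQ : ∀ ψ : ι → F, ψ ⬝ᵥ v = 0 → mk (tv v ψ) ∈ (Q : Subgroup (Pn ι F)) := fun ψ hψ =>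
    hHQ ⟨_, Subgroup.mem_sup_left ⟨ψ, hψ, rfl⟩, rfl⟩
  have hWQ : ∀ w : ι → F, φ ⬝ᵥ w = 0 → mk (tv w φ) ∈ (Q : Subgroup (Pn ι F)) := fun w hw =>
    hHQ ⟨_, Subgroup.mem_sup_right ⟨w, hw, rfl⟩, rfl⟩
  obtain ⟨e, he0, hA, hE, hc⟩ := center_form hι Q.isPGroup' fun Q' hQ' hle => Q.is_maximal' hQ' hle
  have hnt : Nontrivial (Q : Subgroup (Pn ι F)) := by
    refine ⟨⟨⟨_, hVQ φ h⟩, 1, fun h1 => hx1 (congrArg Subtype.val h1)⟩⟩
  have hcn := Q.isPGroup'.center_nontrivial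
  obtain ⟨⟨z, hzc⟩, hz1⟩ := (nontrivial_iff_exists_ne 1).1 hcn
  have hzc' := Subgroup.mem_center_iff.1 hzc
  obtain ⟨χ, hχ0, hχe, hzχ⟩ := hc z z.2 (fun h1 => hz1 (Subtype.ext (Subtype.ext h1)))
    fun y hy => congrArg Subtype.val (hzc' ⟨y, hy⟩)
  have hcomm : ∀ y ∈ (Q : Subgroup (Pn ι F)), y * mk (tv e χ) = mk (tv e χ) * y := by
    intro y hy
    rw [← hzχ]
    exact congrArg Subtype.val (hzc' ⟨y, hy⟩)
  -- conjugation of transvections by `z`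
  have hconj : ∀ (w ψ : ι → F) (hw : ψ ⬝ᵥ w = 0), mk (tv w ψ) ∈ (Q : Subgroup (Pn ι F)) →
      vecMulVec (w + (χ ⬝ᵥ w) • e) (ψ - (ψ ⬝ᵥ e) • χ) = vecMulVec w ψ := by
    intro w ψ hw hQ
    have h1 := hcomm _ hQ
    have h2 : mk (tv e χ * tv w ψ * (tv e χ)⁻¹) = mk (tv w ψ) := by
      rw [map_mul, map_mul, map_inv, ← h1, mul_inv_cancel_right]
    have h3 := dot_conj hw (tv e χ)
    rw [tv_conj hw] at h2
    have h4 := tv_inj h3 hw (mk_tv_inj hι h3 hw h2)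
    rwa [tv_mulVec hχe, vecMul_tv_inv hχe] at h4
  have hev : ¬ Ind e v := by
    intro hind
    obtain ⟨ψ, h1, h2⟩ := dual2 hind 1 0
    have h3 := hconj v ψ h2 (hVQ ψ h2)
    rw [h1, one_smul] at h3
    have h4 := congrArg (fun M : Matrix ι ι F => M *ᵥ e) h3
    simp only [vecMulVec_mulVec, sub_dotProduct, h1, hχe, sub_zero, MulOpposite.op_one,
      one_smul] at h4
    have h5 : (χ ⬝ᵥ v) • e = 0 := add_left_cancel (h4.trans (add_zero v).symm)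
    rw [h5, add_zero] at h3
    have h6 := vmv_right hind.ne_right h3
    exact hχ0 (by rw [sub_eq_self] at h6; exact h6)
  obtain ⟨c, hvc⟩ := par_of_not_ind he0 hev
  have hc0 : c ≠ 0 := by
    rintro rfl
    rw [zero_smul] at hvc
    exact hv hvc
  have hφe : φ ⬝ᵥ e = 0 := by
    rw [hvc, dotProduct_smul, smul_eq_mul] at h
    exact (mul_eq_zero.1 h).resolve_left hc0
  obtain ⟨d, hχd⟩ : ∃ d : F, χ = d • φ := by
    apply ann hφ
    intro w hw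
    rw [dotProduct_comm] at hw
    have h3 := hconj w φ hw (hWQ w hw)
    rw [hφe, zero_smul, sub_zero] at h3
    obtain ⟨i, hi⟩ := exists_ne hφ
    have h4 : w + (χ ⬝ᵥ w) • e = w := by
      funext k
      have h5 := congrFun (congrFun h3 k) i
      rw [vecMulVec_apply, vecMulVec_apply] at h5
      exact mul_right_cancel₀ hi h5
    have h5 : (χ ⬝ᵥ w) • e = 0 := add_left_cancel (h4.trans (add_zero w).symm)
    rw [dotProduct_comm]
    exact (smul_eq_zero.1 h5).resolve_right he0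
  have hd0 : d ≠ 0 := by
    rintro rfl
    rw [zero_smul] at hχd
    exact hχ0 hχd
  refine ⟨hx1, Q, Q.isPGroup', fun Q' hQ' hle => Q.is_maximal' hQ' hle, hVQ φ h, fun y hy => ?_⟩
  obtain ⟨A, rfl, hAe⟩ := hA y hy
  have h1 := hcomm _ hy
  have h2 : mk (A * tv e χ * A⁻¹) = mk (tv e χ) := by
    rw [map_mul, map_mul, map_inv, h1, mul_inv_cancel_right]
  have h3 := dot_conj hχe A
  rw [tv_conj hχe, hAe] at h2
  rw [hAe] at h3
  have h4 := vmv_right he0 (tv_inj h3 hχe (mk_tv_inj hι h3 hχe h2))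
  have h5 : φ ᵥ* (A⁻¹).1 = φ := by
    rw [hχd, smul_vecMul] at h4
    exact smul_right_injective _ hd0 h4
  have h6 : A * tv v φ * A⁻¹ = tv v φ := by
    rw [tv_conj h, h5, hvc, mulVec_smul, hAe]
  rw [← map_mul, ← map_mul, mul_inv_eq_iff_eq_mul.1 h6]

/-- Automorphisms preserve transvections. -/
lemma isT.map (hι : 3 ≤ Fintype.card ι) {x : Pn ι F} (h : isT x) (f : MulAut (Pn ι F)) :
    isT (f x) := by
  obtain ⟨p, hp, hcp⟩ : ∃ p : ℕ, Fact p.Prime ∧ CharP F p := by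
    have hne : ringChar F ≠ 0 := by
      intro h0
      have : CharZero F := (CharP.ringChar_zero_iff_CharZero F).1 h0
      exact not_finite F
    have : NeZero (ringChar F) := ⟨hne⟩
    exact ⟨ringChar F, CharP.char_is_prime_of_pos F (ringChar F), inferInstance⟩
  exact isT_of_K (p := p) hι ((K_of_isT (p := p) hι h).map f)

end Pool.Agent.BSpi.PSLn
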