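import Pool.Agent.BSpi.PSLn.RepEx

set_option autoImplicit false
set_option linter.unusedSimpArgs false
set_option linter.unusedSectionVars false
set_option linter.unusedVariables false

open Matrix Matrix.SpecialLinearGroup
open scoped MatrixGroups

namespace Pool.Agent.BSpi.PSLn

variable {ι F : Type} [Fintype ι] [DecidableEq ι] [Field F]

lemma pow_mul_U {x : Matrix.SpecialLinearGroup ι F} {M : SL(2, F)} {U : Matrix ι (Fin 2) F}
    (h : x.1 * U = U * M.1) (k : ℕ) : (x ^ k).1 * U = U * (M ^ k).1 := by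
  induction k with
  | zero =>
    rw [pow_zero, pow_zero]
    change (1 : Matrix ι ι F) * U = U * (1 : Matrix (Fin 2) (Fin 2) F)
    rw [Matrix.one_mul, Matrix.mul_one]
  | succ k ih =>
    rw [pow_succ, pow_succ, Matrix.SpecialLinearGroup.coe_mul, Matrix.SpecialLinearGroup.coe_mul,
      Matrix.mul_assoc, h, ← Matrix.mul_assoc, ih, Matrix.mul_assoc]

/-- Restriction to an invariant plane. -/
lemma order_restrict {x : Matrix.SpecialLinearGroup ι F} {M : SL(2, F)} {U : Matrix ι (Fin 2) F}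
    {V : Matrix (Fin 2) ι F} (hV : V * U = 1) (h : x.1 * U = U * M.1) :
    orderOf (PSL.mk M) ∣ orderOf (mk x) := by
  apply orderOf_dvd_of_pow_eq_one
  rcases isEmpty_or_nonempty ι with hι | hι
  · exfalso
    have h1 := congrFun (congrFun hV 0) 0
    rw [Matrix.mul_apply, Finset.univ_eq_empty, Finset.sum_empty, Matrix.one_apply_eq] at h1
    exact zero_ne_one h1
  have h1 : mk (x ^ orderOf (mk x)) = mk 1 := by
    rw [map_pow, pow_orderOf_eq_one, map_one]
  obtain ⟨c, -, hc⟩ := mk_eq_smul h1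
  have h2 := pow_mul_U h (orderOf (mk x))
  rw [hc] at h2
  have h3 : (M ^ orderOf (mk x)).1 = c • (1 : SL(2, F)).1 := by
    have h4 : V * ((c • (1 : Matrix ι ι F)) * U) = V * (U * (M ^ orderOf (mk x)).1) :=
      congrArg (fun Z => V * Z) h2
    rw [← Matrix.mul_assoc V U, hV, Matrix.one_mul, Matrix.smul_mul, Matrix.one_mul,
      Matrix.mul_smul, hV] at h4
    exact h4.symm
  have h4 : (mk (M ^ orderOf (mk x)) : Pn (Fin 2) F) = mk 1 := mk_eq_of_smul h3
  rw [← map_pow]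
  change PSL.mk _ = PSL.mk 1 at h4
  rw [h4, map_one]

/-- The matrix with columns `v` and `w`. -/
def col2 (v w : ι → F) : Matrix ι (Fin 2) F := Matrix.of fun i j => if j = 0 then v i else w i

/-- The matrix with rows `φ` and `ψ`. -/
def row2 (φ ψ : ι → F) : Matrix (Fin 2) ι F := Matrix.of fun j i => if j = 0 then φ i else ψ i

lemma col2_zero (v w : ι → F) (i : ι) : col2 v w i 0 = v i := rfl
lemma col2_one (v w : ι → F) (i : ι) : col2 v w i 1 = w i := rfl

lemma row2_mul_col2 (φ ψ v w : ι → F) (h1 : φ ⬝ᵥ v = 1) (h2 : φ ⬝ᵥ w = 0) (h3 : ψ ⬝ᵥ v = 0)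
    (h4 : ψ ⬝ᵥ w = 1) : row2 φ ψ * col2 v w = 1 := by
  ext i j
  rw [Matrix.mul_apply]
  fin_cases i <;> fin_cases j
  · exact h1
  · exact h2
  · exact h3
  · exact h4

/-- Left inverse of the matrix with two independent columns. -/
lemma exists_left {v w : ι → F} (h : Ind v w) : ∃ V : Matrix (Fin 2) ι F, V * col2 v w = 1 := by
  obtain ⟨φ, h1, h2⟩ := dual2 h 1 0
  obtain ⟨ψ, h3, h4⟩ := dual2 h 0 1
  exact ⟨row2 φ ψ, row2_mul_col2 _ _ _ _ h1 h2 h3 h4⟩

lemma mul_col2 (A : Matrix ι ι F) (v w : ι → F) : A * col2 v w = col2 (A *ᵥ v) (A *ᵥ w) := by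
  ext i j
  fin_cases j <;> rfl

lemma col2_mul (v w : ι → F) (M : Matrix (Fin 2) (Fin 2) F) :
    col2 v w * M = col2 (M 0 0 • v + M 1 0 • w) (M 0 1 • v + M 1 1 • w) := by
  ext i j
  rw [Matrix.mul_apply, Fin.sum_univ_two]
  fin_cases j
  · change v i * M 0 0 + w i * M 1 0 = M 0 0 * v i + M 1 0 * w i
    ring
  · change v i * M 0 1 + w i * M 1 1 = M 0 1 * v i + M 1 1 * w i
    ring

/-- A matrix of determinant one acting on a plane in a prescribed way. -/
lemma exists_ext (hι : 3 ≤ Fintype.card ι) {v w : ι → F} (h : Ind v w) (g : GL (Fin 2) F) :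
    ∃ s : Matrix.SpecialLinearGroup ι F, s.1 * col2 v w = col2 v w * g.1 := by
  obtain ⟨φ, h1, h2⟩ := dual2 h 1 0
  obtain ⟨ψ, h3, h4⟩ := dual2 h 0 1
  have hV := row2_mul_col2 _ _ _ _ h1 h2 h3 h4
  obtain ⟨u, hu0, hu1, hu2⟩ := exists_ker2 hι φ ψ
  obtain ⟨i, hi⟩ := exists_ne hu0
  let χ0 : ι → F := (u i)⁻¹ • Pi.single i 1
  let χ : ι → F := χ0 - (χ0 ⬝ᵥ v) • φ - (χ0 ⬝ᵥ w) • ψ
  have hχ0 : χ0 ⬝ᵥ u = 1 := by
    simp only [χ0]
    rw [smul_dotProduct, single_dotProduct, one_mul, smul_eq_mul, inv_mul_cancel₀ hi]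
  have hχv : χ ⬝ᵥ v = 0 := by
    simp only [χ, sub_dotProduct, smul_dotProduct, h1, h3, smul_eq_mul]
    ring
  have hχw : χ ⬝ᵥ w = 0 := by
    simp only [χ, sub_dotProduct, smul_dotProduct, h2, h4, smul_eq_mul]
    ring
  have hχu : χ ⬝ᵥ u = 1 := by
    simp only [χ, sub_dotProduct, smul_dotProduct, hu1, hu2, hχ0, smul_eq_mul]
    ring
  have hg : det g.1 ≠ 0 := ((Matrix.isUnit_iff_isUnit_det g.1).1 g.isUnit).ne_zero
  have hA : (1 + col2 v w * ((g.1 - 1) * row2 φ ψ)) * col2 v w = col2 v w * g.1 := by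
    rw [Matrix.add_mul, Matrix.one_mul, Matrix.mul_assoc, Matrix.mul_assoc, hV, Matrix.mul_one,
      Matrix.mul_sub, Matrix.mul_one, add_sub_cancel]
  have hB : (1 + vecMulVec (((det g.1)⁻¹ - 1) • u) χ) * col2 v w = col2 v w := by
    rw [mul_col2, add_mulVec, add_mulVec, one_mulVec, one_mulVec, vecMulVec_mulVec,
      vecMulVec_mulVec, hχv, hχw]
    simp
  refine ⟨⟨(1 + col2 v w * ((g.1 - 1) * row2 φ ψ)) *
    (1 + vecMulVec (((det g.1)⁻¹ - 1) • u) χ), ?_⟩, ?_⟩
  · rw [det_mul, det_one_add_mul_comm, Matrix.mul_assoc, hV, Matrix.mul_one, add_sub_cancel, det_tv,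
      dotProduct_smul, hχu, smul_eq_mul, mul_one, add_sub_cancel, mul_inv_cancel₀ hg]
  · change ((1 + col2 v w * ((g.1 - 1) * row2 φ ψ)) *
      (1 + vecMulVec (((det g.1)⁻¹ - 1) • u) χ)) * col2 v w = _
    rw [Matrix.mul_assoc, hB, hA]

/-- Either a third vector lies in a plane or some functional separates it from the plane. -/
lemma dichotomy {v w u : ι → F} (h : Ind v w) :
    (∃ χ : ι → F, χ ⬝ᵥ v = 0 ∧ χ ⬝ᵥ w = 0 ∧ χ ⬝ᵥ u = 1) ∨ ∃ a b : F, u = a • v + b • w := by
  obtain ⟨φ, h1, h2⟩ := dual2 h 1 0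
  obtain ⟨ψ, h3, h4⟩ := dual2 h 0 1
  by_cases hk : ∀ k : ι, u k = (φ ⬝ᵥ u) * v k + (ψ ⬝ᵥ u) * w k
  · exact Or.inr ⟨φ ⬝ᵥ u, ψ ⬝ᵥ u, funext hk⟩
  · push Not at hk
    obtain ⟨k, hk⟩ := hk
    left
    set χ : ι → F := Pi.single k 1 - v k • φ - w k • ψ with hχ
    have e1 : χ ⬝ᵥ v = 0 := by
      simp only [hχ, sub_dotProduct, smul_dotProduct, h1, h3, smul_eq_mul, single_dotProduct]
      ring
    have e2 : χ ⬝ᵥ w = 0 := by
      simp only [hχ, sub_dotProduct, smul_dotProduct, h2, h4, smul_eq_mul, single_dotProduct]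
      ring
    have e3 : χ ⬝ᵥ u ≠ 0 := by
      intro h0
      apply hk
      simp only [hχ, sub_dotProduct, smul_dotProduct, smul_eq_mul, single_dotProduct] at h0
      linear_combination h0
    refine ⟨(χ ⬝ᵥ u)⁻¹ • χ, ?_, ?_, ?_⟩
    · rw [smul_dotProduct, e1, smul_zero]
    · rw [smul_dotProduct, e2, smul_zero]
    · rw [smul_dotProduct, smul_eq_mul, inv_mul_cancel₀ e3]

/-- The norm form represents everything. -/
lemma norm_surj [Finite F] (t d : F) (h : t * t - 4 * d ≠ 0) (c : F) :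
    ∃ x y : F, x * x + t * x * y + d * y * y = c := by
  have := Fintype.ofFinite F
  by_cases h2 : ringChar F = 2
  · obtain ⟨a, ha⟩ := FiniteField.isSquare_of_char_two h2 c
    exact ⟨a, 0, by rw [ha]; ring⟩
  · have h2' : (2 : F) ≠ 0 := Ring.two_ne_zero h2
    have hodd : Fintype.card F % 2 = 1 := FiniteField.odd_card_of_char_ne_two h2
    have h4 : (t * t - 4 * d) / 4 ≠ 0 := by
      apply div_ne_zero h
      have : (4 : F) = 2 * 2 := by norm_num
      rw [this]
      exact mul_ne_zero h2' h2'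
    obtain ⟨a, b, hab⟩ := FiniteField.exists_root_sum_quadratic (R := F)
      (f := Polynomial.X ^ 2 - Polynomial.C c)
      (g := Polynomial.C (-((t * t - 4 * d) / 4)) * Polynomial.X ^ 2)
      (Polynomial.degree_X_pow_sub_C (by norm_num) c)
      (Polynomial.degree_C_mul_X_pow 2 (neg_ne_zero.2 h4)) hodd
    refine ⟨a - t * b / 2, b, ?_⟩
    simp only [Polynomial.eval_pow, Polynomial.eval_X, Polynomial.eval_sub, Polynomial.eval_C,
      Polynomial.eval_mul] at hab
    have h22 : (4 : F) = 2 * 2 := by norm_num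
    rw [h22] at hab
    field_simp at hab ⊢
    linear_combination hab

lemma gl_inv {a b c d : F} (h : a * d - b * c ≠ 0) :
    (PSL.gl a b c d h)⁻¹ = PSL.gl (d / (a * d - b * c)) (-b / (a * d - b * c))
      (-c / (a * d - b * c)) (a / (a * d - b * c)) (by
        have h1 : d / (a * d - b * c) * (a / (a * d - b * c)) -
            -b / (a * d - b * c) * (-c / (a * d - b * c)) = (a * d - b * c)⁻¹ := by
          field_simp
        rw [h1]
        exact inv_ne_zero h) := by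
  rw [inv_eq_iff_mul_eq_one]
  apply Units.ext
  ext i j
  rw [PSL.gl_mul_apply]
  fin_cases i <;> fin_cases j
  · change a * (d / (a * d - b * c)) + b * (-c / (a * d - b * c)) = 1
    field_simp
    ring
  · change a * (-b / (a * d - b * c)) + b * (a / (a * d - b * c)) = 0
    field_simp
    ring
  · change c * (d / (a * d - b * c)) + d * (-c / (a * d - b * c)) = 0
    field_simp
    ring
  · change c * (-b / (a * d - b * c)) + d * (a / (a * d - b * c)) = 1
    rw [mul_div_assoc', mul_div_assoc', ← add_div, div_eq_one_iff_eq h]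
    ring

/-- Commutators of `2 × 2` matrices have all traces. -/
lemma comm_trace [Finite F] (t d : F) (hd : d ≠ 0) (c : F) (hc : c ≠ 2) :
    ∃ g : GL (Fin 2) F, ∃ M : SL(2, F), M.1 =
      (PSL.gl 0 (-d) 1 t (by simpa using hd) * g * (PSL.gl 0 (-d) 1 t (by simpa using hd))⁻¹ *
        g⁻¹).1 ∧ M 0 0 + M 1 1 = c := by
  have key : ∀ g : GL (Fin 2) F, det (PSL.gl 0 (-d) 1 t (by simpa using hd) * g *
      (PSL.gl 0 (-d) 1 t (by simpa using hd))⁻¹ * g⁻¹).1 = 1 := by
    intro g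
    have h1 : ∀ T g : GL (Fin 2) F, det (T * g * T⁻¹ * g⁻¹).1 = 1 := by
      intro T g
      have h2 := gl_mul_inv T
      have h3 := gl_mul_inv g
      have h4 := congrArg det h2
      have h5 := congrArg det h3
      rw [det_mul, det_one] at h4 h5
      rw [Units.val_mul, Units.val_mul, Units.val_mul, det_mul, det_mul, det_mul]
      linear_combination det g.1 * det (g⁻¹).1 * h4 + h5
    exact h1 _ g
  have tr_key : ∀ (a b e f : F) (h : a * f - b * e ≠ 0),
      (PSL.gl 0 (-d) 1 t (by simpa using hd) * PSL.gl a b e f h *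
        (PSL.gl 0 (-d) 1 t (by simpa using hd))⁻¹ * (PSL.gl a b e f h)⁻¹) 0 0 +
      (PSL.gl 0 (-d) 1 t (by simpa using hd) * PSL.gl a b e f h *
        (PSL.gl 0 (-d) 1 t (by simpa using hd))⁻¹ * (PSL.gl a b e f h)⁻¹) 1 1 =
      (d * f * f + d * d * e * e + b * b + d * a * a + t * (-(d * e * f) - a * b + b * f +
        d * a * e) - t * t * b * e) / (d * (a * f - b * e)) := by
    intro a b e f h
    rw [gl_inv, gl_inv]
    simp only [PSL.gl_mul_apply, PSL.gl00, PSL.gl01, PSL.gl10, PSL.gl11]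
    have h1 : (0 : F) * t - -d * 1 = d := by ring
    rw [h1]
    field_simp
    ring
  by_cases hΔ : t * t - 4 * d = 0
  · obtain ⟨α, hα1, hα2⟩ : ∃ α : F, 2 * α = t ∧ α * α = d := by
      have := Fintype.ofFinite F
      by_cases h2 : ringChar F = 2
      · have : CharP F 2 := ringChar.of_eq h2
        have h20 : (2 : F) = 0 := CharTwo.two_eq_zero
        obtain ⟨α, hα⟩ := FiniteField.isSquare_of_char_two h2 d
        refine ⟨α, ?_, hα.symm⟩
        have h4 : t * t = 0 := by linear_combination hΔ + 2 * d * h20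
        rw [mul_self_eq_zero.1 h4, h20, zero_mul]
      · have h2' : (2 : F) ≠ 0 := Ring.two_ne_zero h2
        refine ⟨t / 2, by field_simp, ?_⟩
        field_simp
        linear_combination hΔ
    have hα0 : α ≠ 0 := by
      rintro rfl
      apply hd
      rw [← hα2, zero_mul]
    have hc' : c - 2 ≠ 0 := sub_ne_zero.2 hc
    have hdet : (-1) * 1 - ((1 - c) * α) * α⁻¹ ≠ 0 := by
      rw [mul_assoc, mul_inv_cancel₀ hα0]
      intro h
      apply hc'
      linear_combination h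
    refine ⟨PSL.gl (-1) ((1 - c) * α) α⁻¹ 1 hdet, ⟨_, key _⟩, rfl, ?_⟩
    refine (tr_key _ _ _ _ hdet).trans ?_
    rw [← hα1, ← hα2]
    have h5 : (-1) * 1 - (1 - c) * α * α⁻¹ = c - 2 := by
      rw [mul_assoc, mul_inv_cancel₀ hα0]
      ring
    rw [h5]
    field_simp
    ring
  · set w := (2 - c) * d / (t * t - 4 * d) with hw
    obtain ⟨x1, y1, h1⟩ := norm_surj t d hΔ (1 + w)
    obtain ⟨x2, y2, h2⟩ := norm_surj t d hΔ w
    have hwd : w * (t * t - 4 * d) = (2 - c) * d := by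
      rw [hw, div_mul_cancel₀ _ hΔ]
    have hdet1 : (x1 + x2) * (x1 + t * y1 - x2) - (-(d * y1) + t * x2 + d * y2) * (y1 + y2) = 1 := by
      linear_combination h1 - h2
    have hdet : (x1 + x2) * (x1 + t * y1 - x2) - (-(d * y1) + t * x2 + d * y2) * (y1 + y2) ≠ 0 := by
      rw [hdet1]
      exact one_ne_zero
    refine ⟨PSL.gl (x1 + x2) (-(d * y1) + t * x2 + d * y2) (y1 + y2) (x1 + t * y1 - x2) hdet,
      ⟨_, key _⟩, rfl, ?_⟩
    refine (tr_key _ _ _ _ hdet).trans ?_
    rw [hdet1, mul_one, div_eq_iff hd]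
    linear_combination 2 * d * h1 - (t * t - 2 * d) * h2 - hwd

end Pool.Agent.BSpi.PSLn
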