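import Pool.Agent.BSpi.PSLn.Trans

set_option autoImplicit false
set_option linter.unusedSimpArgs false
set_option linter.unusedSectionVars false
set_option linter.unusedVariables false

open Matrix Matrix.SpecialLinearGroup

namespace Pool.Agent.BSpi.PSLn

variable {ι F : Type} [Fintype ι] [DecidableEq ι] [Field F]

/-- Transvections with center `v` in `PSL`. -/
def PV (v : ι → F) : Subgroup (Pn ι F) := (EV v).map mk

/-- Transvections with axis the kernel of `φ` in `PSL`. -/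
def PH (φ : ι → F) : Subgroup (Pn ι F) := (EH φ).map mk

lemma mem_PV {v : ι → F} {x : Pn ι F} : x ∈ PV v ↔ ∃ φ : ι → F, φ ⬝ᵥ v = 0 ∧ x = mk (tv v φ) := by
  constructor
  · rintro ⟨_, ⟨φ, h, rfl⟩, rfl⟩
    exact ⟨φ, h, rfl⟩
  · rintro ⟨φ, h, rfl⟩
    exact ⟨_, ⟨φ, h, rfl⟩, rfl⟩

lemma mem_PH {φ : ι → F} {x : Pn ι F} : x ∈ PH φ ↔ ∃ v : ι → F, φ ⬝ᵥ v = 0 ∧ x = mk (tv v φ) := by
  constructor
  · rintro ⟨_, ⟨v, h, rfl⟩, rfl⟩
    exact ⟨v, h, rfl⟩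
  · rintro ⟨v, h, rfl⟩
    exact ⟨_, ⟨v, h, rfl⟩, rfl⟩

lemma PV_smul {v : ι → F} {c : F} (hc : c ≠ 0) : PV (c • v) = PV v := by
  ext x
  rw [mem_PV, mem_PV]
  constructor
  · rintro ⟨φ, h, rfl⟩
    rw [dotProduct_smul, smul_eq_mul] at h
    have h1 := (mul_eq_zero.1 h).resolve_left hc
    exact ⟨c • φ, by rw [smul_dotProduct, h1, smul_zero], by rw [tv_smul]⟩
  · rintro ⟨φ, h, rfl⟩
    refine ⟨c⁻¹ • φ, by rw [dotProduct_smul, smul_dotProduct, h, smul_zero, smul_zero], ?_⟩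
    rw [tv_smul, smul_smul, mul_inv_cancel₀ hc, one_smul]

lemma PH_smul {φ : ι → F} {c : F} (hc : c ≠ 0) : PH (c • φ) = PH φ := by
  ext x
  rw [mem_PH, mem_PH]
  constructor
  · rintro ⟨v, h, rfl⟩
    rw [smul_dotProduct, smul_eq_mul] at h
    have h1 := (mul_eq_zero.1 h).resolve_left hc
    exact ⟨c • v, by rw [dotProduct_smul, h1, smul_zero], by rw [tv_smul]⟩
  · rintro ⟨v, h, rfl⟩
    refine ⟨c⁻¹ • v, by rw [dotProduct_smul, smul_dotProduct, h, smul_zero, smul_zero], ?_⟩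
    rw [tv_smul, smul_smul, inv_mul_cancel₀ hc, one_smul]

omit [DecidableEq ι] in
lemma ne_zero_of_dot {φ v : ι → F} {a : F} (ha : a ≠ 0) (h : φ ⬝ᵥ v = a) : φ ≠ 0 := by
  rintro rfl
  rw [zero_dotProduct] at h
  exact ha h.symm

/-- Two independent functionals killing a vector. -/
lemma exists_two (hι : 3 ≤ Fintype.card ι) (v : ι → F) :
    ∃ φ ψ : ι → F, Ind φ ψ ∧ φ ⬝ᵥ v = 0 ∧ ψ ⬝ᵥ v = 0 := by
  obtain ⟨φ, hφ0, hφ, -⟩ := exists_ker2 hι v v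
  obtain ⟨i, hi⟩ := exists_ne hφ0
  obtain ⟨ψ, hψ0, hψ, hψ2⟩ := exists_ker2 hι v (Pi.single i 1)
  rw [dotProduct_comm] at hφ hψ
  refine ⟨φ, ψ, ?_, hφ, hψ⟩
  by_contra hcon
  obtain ⟨c, hc⟩ := par_of_not_ind hφ0 hcon
  rw [single_dotProduct, one_mul, hc, Pi.smul_apply, smul_eq_mul] at hψ2
  have h1 := (mul_eq_zero.1 hψ2).resolve_right hi
  rw [h1, zero_smul] at hc
  exact hψ0 hc

lemma Ind.smul_left {v w : ι → F} (h : Ind v w) {c : F} (hc : c ≠ 0) : Ind (c • v) w := by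
  obtain ⟨i, j, hij⟩ := h
  refine ⟨i, j, fun h0 => hij ?_⟩
  rw [Pi.smul_apply, Pi.smul_apply, smul_eq_mul, smul_eq_mul] at h0
  apply mul_left_cancel₀ hc
  linear_combination h0

variable [Finite F]

lemma meetVV (hι : 3 ≤ Fintype.card ι) {v w : ι → F} (hv : v ≠ 0) (hw : w ≠ 0) {x : Pn ι F}
    (hx : x ≠ 1) (h1 : x ∈ PV v) (h2 : x ∈ PV w) : PV v = PV w := by
  obtain ⟨φ, hφ, rfl⟩ := mem_PV.1 h1
  obtain ⟨ψ, hψ, he⟩ := mem_PV.1 h2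
  have hφ0 : φ ≠ 0 := by
    rintro rfl
    rw [tv_zero_right, map_one] at hx
    exact hx rfl
  obtain ⟨c, hc, h3, -⟩ := vmv_eq hv hφ0 (tv_inj hφ hψ (mk_tv_inj hι hφ hψ he))
  rw [h3, PV_smul hc]

lemma meetHH (hι : 3 ≤ Fintype.card ι) {φ ψ : ι → F} (hφ0 : φ ≠ 0) (hψ0 : ψ ≠ 0) {x : Pn ι F}
    (hx : x ≠ 1) (h1 : x ∈ PH φ) (h2 : x ∈ PH ψ) : PH φ = PH ψ := by
  obtain ⟨v, hv, rfl⟩ := mem_PH.1 h1
  obtain ⟨w, hw, he⟩ := mem_PH.1 h2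
  have hv0 : v ≠ 0 := by
    rintro rfl
    rw [tv_zero_left, map_one] at hx
    exact hx rfl
  obtain ⟨c, hc, -, h3⟩ := vmv_eq hv0 hφ0 (tv_inj hv hw (mk_tv_inj hι hv hw he))
  rw [h3, PH_smul hc]

lemma meetVH (hι : 3 ≤ Fintype.card ι) {v φ : ι → F} (hv0 : v ≠ 0) (hφ0 : φ ≠ 0) {x : Pn ι F}
    (hx : x ≠ 1) (h1 : x ∈ PV v) (h2 : x ∈ PH φ) : φ ⬝ᵥ v = 0 := by
  obtain ⟨ψ, hψ, rfl⟩ := mem_PV.1 h1
  obtain ⟨w, hw, he⟩ := mem_PH.1 h2
  have hψ0 : ψ ≠ 0 := by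
    rintro rfl
    rw [tv_zero_right, map_one] at hx
    exact hx rfl
  obtain ⟨c, hc, h3, h4⟩ := vmv_eq hv0 hψ0 (tv_inj hψ hw (mk_tv_inj hι hψ hw he))
  rw [h3, dotProduct_smul, smul_eq_mul] at hw
  exact (mul_eq_zero.1 hw).resolve_left hc

lemma mem_PV_tv {v φ : ι → F} (h : φ ⬝ᵥ v = 0) : mk (tv v φ) ∈ PV v := mem_PV.2 ⟨φ, h, rfl⟩

lemma mem_PH_tv {v φ : ι → F} (h : φ ⬝ᵥ v = 0) : mk (tv v φ) ∈ PH φ := mem_PH.2 ⟨v, h, rfl⟩

/-- Point subgroups. -/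
def Pt (A : Subgroup (Pn ι F)) : Prop := ∃ v : ι → F, v ≠ 0 ∧ A = PV v

/-- Hyperplane subgroups. -/
def Hp (A : Subgroup (Pn ι F)) : Prop := ∃ φ : ι → F, φ ≠ 0 ∧ A = PH φ

lemma PV_not_le (hι : 3 ≤ Fintype.card ι) {v φ : ι → F} (hv0 : v ≠ 0) (hφ0 : φ ≠ 0) :
    ¬ PV v ≤ PH φ := by
  intro hle
  obtain ⟨ψ, χ, hind, h1, h2⟩ := exists_two hι v
  have key : ∀ ψ : ι → F, ψ ≠ 0 → ψ ⬝ᵥ v = 0 → ∃ c : F, c ≠ 0 ∧ ψ = c • φ := by
    intro ψ hψ0 hψ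
    obtain ⟨w, hw, he⟩ := mem_PH.1 (hle (mem_PV_tv hψ))
    obtain ⟨c, hc, -, h4⟩ := vmv_eq hv0 hψ0 (tv_inj hψ hw (mk_tv_inj hι hψ hw he))
    exact ⟨c, hc, h4⟩
  obtain ⟨c, hc, hψ⟩ := key ψ hind.ne_left h1
  obtain ⟨d, hd, hχ⟩ := key χ hind.ne_right h2
  obtain ⟨i, j, hij⟩ := hind
  apply hij
  rw [hψ, hχ]
  simp only [Pi.smul_apply, smul_eq_mul]
  ring

lemma not_both (hι : 3 ≤ Fintype.card ι) {A : Subgroup (Pn ι F)} (h1 : Pt A) (h2 : Hp A) :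
    False := by
  obtain ⟨v, hv, rfl⟩ := h1
  obtain ⟨φ, hφ, h⟩ := h2
  exact PV_not_le hι hv hφ h.le

lemma cliq (hι : 3 ≤ Fintype.card ι) (A : Subgroup (Pn ι F)) (hA : ∀ x ∈ A, x ≠ 1 → isT x) :
    (∃ v : ι → F, v ≠ 0 ∧ A ≤ PV v) ∨ ∃ φ : ι → F, φ ≠ 0 ∧ A ≤ PH φ := by
  by_cases hA1 : ∃ x ∈ A, x ≠ 1
  swap
  · push Not at hA1
    have : Nonempty ι := Fintype.card_pos_iff.1 (by omega)
    obtain ⟨i⟩ := this
    refine Or.inl ⟨Pi.single i 1, ?_, fun x hx => ?_⟩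
    · intro h
      have := congrFun h i
      simp at this
    · rw [hA1 x hx]
      exact one_mem _
  obtain ⟨x, hxA, hx1⟩ := hA1
  obtain ⟨v, φ, hv, hφ, h, rfl⟩ := hA x hxA hx1
  by_cases h1 : A ≤ PV v
  · exact Or.inl ⟨v, hv, h1⟩
  by_cases h2 : A ≤ PH φ
  · exact Or.inr ⟨φ, hφ, h2⟩
  exfalso
  rw [SetLike.not_le_iff_exists] at h1 h2
  obtain ⟨y1, hy1A, hy1⟩ := h1
  obtain ⟨y2, hy2A, hy2⟩ := h2
  obtain ⟨v1, φ1, hv1, hφ1, hh1, rfl⟩ := hA y1 hy1A (fun h0 => hy1 (h0 ▸ one_mem _))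
  obtain ⟨v2, φ2, hv2, hφ2, hh2, rfl⟩ := hA y2 hy2A (fun h0 => hy2 (h0 ▸ one_mem _))
  have i1 : Ind v v1 := by
    by_contra hcon
    obtain ⟨c, rfl⟩ := par_of_not_ind hv hcon
    have hc : c ≠ 0 := by
      rintro rfl
      exact hv1 (zero_smul _ _)
    apply hy1
    have := mem_PV_tv hh1
    rwa [PV_smul hc] at this
  have i2 : Ind φ φ2 := by
    by_contra hcon
    obtain ⟨c, rfl⟩ := par_of_not_ind hφ hcon
    have hc : c ≠ 0 := by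
      rintro rfl
      exact hφ2 (zero_smul _ _)
    apply hy2
    have := mem_PH_tv hh2
    rwa [PH_smul hc] at this
  have key : ∀ (w w' ψ ψ' : ι → F), ψ ⬝ᵥ w = 0 → ψ' ⬝ᵥ w' = 0 → mk (tv w ψ) ∈ A →
      mk (tv w' ψ') ∈ A → ¬ Ind w w' ∨ ¬ Ind ψ ψ' := by
    intro w w' ψ ψ' hw hw' hA1 hA2
    have h3 := mul_mem hA1 hA2
    by_cases h4 : mk (tv w ψ) * mk (tv w' ψ') = 1
    · refine tv_prod hι hw hw' (x := w) (χ := 0) (by simp) ?_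
      rw [h4, tv_zero_right, map_one]
    · obtain ⟨u, χ, -, -, hu, he⟩ := hA _ h3 h4
      exact tv_prod hι hw hw' hu he
  have j1 : ¬ Ind φ φ1 := (key v v1 φ φ1 h hh1 hxA hy1A).resolve_left (fun h => h i1)
  have j2 : ¬ Ind v v2 := (key v v2 φ φ2 h hh2 hxA hy2A).resolve_right (fun h => h i2)
  obtain ⟨c1, rfl⟩ := par_of_not_ind hφ j1
  obtain ⟨c2, rfl⟩ := par_of_not_ind hv j2
  have hc1 : c1 ≠ 0 := by
    rintro rfl
    exact hφ1 (zero_smul _ _)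
  have hc2 : c2 ≠ 0 := by
    rintro rfl
    exact hv2 (zero_smul _ _)
  rcases key _ _ _ _ hh1 hh2 hy1A hy2A with h3 | h3
  · exact h3 (i1.smul_left hc2).symm
  · exact h3 (i2.smul_left hc1)

lemma PV_max (hι : 3 ≤ Fintype.card ι) {v : ι → F} (hv : v ≠ 0) {A : Subgroup (Pn ι F)}
    (hA : Pt A ∨ Hp A) (hle : PV v ≤ A) : PV v = A := by
  rcases hA with ⟨w, hw, rfl⟩ | ⟨φ, hφ, rfl⟩
  · obtain ⟨ψ, χ, hind, h1, h2⟩ := exists_two hι v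
    exact meetVV hι hv hw (mk_tv_ne_one hι hv hind.ne_left h1) (mem_PV_tv h1) (hle (mem_PV_tv h1))
  · exact absurd hle (PV_not_le hι hv hφ)

lemma isT_of_PV {v : ι → F} (hv : v ≠ 0) {x : Pn ι F} (hx : x ∈ PV v) (hx1 : x ≠ 1) : isT x := by
  obtain ⟨φ, h, rfl⟩ := mem_PV.1 hx
  refine ⟨v, φ, hv, ?_, h, rfl⟩
  rintro rfl
  rw [tv_zero_right, map_one] at hx1
  exact hx1 rfl

lemma isT_of_PH {φ : ι → F} (hφ : φ ≠ 0) {x : Pn ι F} (hx : x ∈ PH φ) (hx1 : x ≠ 1) : isT x := by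
  obtain ⟨v, h, rfl⟩ := mem_PH.1 hx
  refine ⟨v, φ, ?_, hφ, h, rfl⟩
  rintro rfl
  rw [tv_zero_left, map_one] at hx1
  exact hx1 rfl

/-- The image of a subgroup under an automorphism. -/
def im (f : MulAut (Pn ι F)) (A : Subgroup (Pn ι F)) : Subgroup (Pn ι F) := A.map f.toMonoidHom

lemma im_mul (f g : MulAut (Pn ι F)) (A : Subgroup (Pn ι F)) : im (f * g) A = im f (im g A) := by
  rw [im, im, im, Subgroup.map_map]
  rfl

lemma mem_im (f : MulAut (Pn ι F)) (A : Subgroup (Pn ι F)) {x : Pn ι F} (hx : x ∈ A) :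
    f x ∈ im f A := ⟨x, hx, rfl⟩

lemma im_injective (f : MulAut (Pn ι F)) : Function.Injective (im f) :=
  Subgroup.map_injective f.injective

lemma im_isT (hι : 3 ≤ Fintype.card ι) (f : MulAut (Pn ι F)) {A : Subgroup (Pn ι F)}
    (hA : ∀ x ∈ A, x ≠ 1 → isT x) : ∀ x ∈ im f A, x ≠ 1 → isT x := by
  rintro _ ⟨x, hx, rfl⟩ hx1
  exact (hA x hx (fun h => hx1 (by rw [h, map_one]))).map hι f

lemma im_PV (hι : 3 ≤ Fintype.card ι) (f : MulAut (Pn ι F)) {v : ι → F} (hv : v ≠ 0) :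
    Pt (im f (PV v)) ∨ Hp (im f (PV v)) := by
  have key : ∀ B : Subgroup (Pn ι F), (Pt B ∨ Hp B) → im f (PV v) ≤ B → im f (PV v) = B := by
    intro B hB hle
    have hBT : ∀ x ∈ B, x ≠ 1 → isT x := by
      rcases hB with ⟨w, hw, rfl⟩ | ⟨φ, hφ, rfl⟩
      · exact fun x => isT_of_PV hw
      · exact fun x => isT_of_PH hφ
    obtain ⟨C, hC, hC2⟩ : ∃ C : Subgroup (Pn ι F), (Pt C ∨ Hp C) ∧ im f⁻¹ B ≤ C := by
      rcases cliq hι _ (im_isT hι f⁻¹ hBT) with ⟨w, hw, h⟩ | ⟨φ, hφ, h⟩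
      · exact ⟨_, Or.inl ⟨w, hw, rfl⟩, h⟩
      · exact ⟨_, Or.inr ⟨φ, hφ, rfl⟩, h⟩
    have h1 : PV v ≤ im f⁻¹ B := by
      intro x hx
      refine ⟨f x, hle (mem_im f _ hx), ?_⟩
      change f⁻¹ (f x) = x
      rw [← MulAut.mul_apply, inv_mul_cancel, MulAut.one_apply]
    have h2 := PV_max hι hv hC (h1.trans hC2)
    refine le_antisymm hle ?_
    intro y hy
    refine ⟨f⁻¹ y, ?_, ?_⟩
    · rw [h2]
      exact hC2 (mem_im f⁻¹ _ hy)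
    · change f (f⁻¹ y) = y
      rw [← MulAut.mul_apply, mul_inv_cancel, MulAut.one_apply]
  rcases cliq hι _ (im_isT hι f (fun x => isT_of_PV hv)) with ⟨w, hw, h⟩ | ⟨φ, hφ, h⟩
  · rw [key _ (Or.inl ⟨w, hw, rfl⟩) h]
    exact Or.inl ⟨w, hw, rfl⟩
  · rw [key _ (Or.inr ⟨φ, hφ, rfl⟩) h]
    exact Or.inr ⟨φ, hφ, rfl⟩

/-- The transpose. -/
def tp (A : Matrix.SpecialLinearGroup ι F) : Matrix.SpecialLinearGroup ι F :=
  ⟨(A.1)ᵀ, by rw [det_transpose]; exact A.2⟩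

lemma tp_val (A : Matrix.SpecialLinearGroup ι F) : (tp A).1 = (A.1)ᵀ := rfl

lemma tp_mul (A B : Matrix.SpecialLinearGroup ι F) : tp (A * B) = tp B * tp A := by
  apply coe_inj
  rw [Matrix.SpecialLinearGroup.coe_mul, tp_val, tp_val, tp_val, Matrix.SpecialLinearGroup.coe_mul,
    transpose_mul]

lemma tp_one : tp (1 : Matrix.SpecialLinearGroup ι F) = 1 := by
  apply coe_inj
  rw [tp_val]
  exact transpose_one

lemma tp_tp (A : Matrix.SpecialLinearGroup ι F) : tp (tp A) = A := by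
  apply coe_inj
  rw [tp_val, tp_val, transpose_transpose]

lemma tp_inv (A : Matrix.SpecialLinearGroup ι F) : (tp A)⁻¹ = tp A⁻¹ := by
  rw [inv_eq_iff_mul_eq_one, ← tp_mul, inv_mul_cancel, tp_one]

/-- Inverse transpose on matrices. -/
def tr0 : Matrix.SpecialLinearGroup ι F ≃* Matrix.SpecialLinearGroup ι F where
  toFun A := tp A⁻¹
  invFun A := tp A⁻¹
  left_inv A := by
    change tp (tp A⁻¹)⁻¹ = A
    rw [tp_inv, _root_.inv_inv, tp_tp]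
  right_inv A := by
    change tp (tp A⁻¹)⁻¹ = A
    rw [tp_inv, _root_.inv_inv, tp_tp]
  map_mul' A B := by rw [_root_.mul_inv_rev, tp_mul]

/-- Inverse transpose on `PSL`. -/
def tr : MulAut (Pn ι F) :=
  QuotientGroup.congr _ _ tr0 (by
    ext x
    constructor
    · rintro ⟨y, hy, rfl⟩
      rw [SetLike.mem_coe, Subgroup.mem_center_iff] at hy
      rw [Subgroup.mem_center_iff]
      intro g
      obtain ⟨g, rfl⟩ := tr0.surjective g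
      change tr0 g * tr0 y = tr0 y * tr0 g
      rw [← map_mul, hy g, map_mul]
    · intro hx
      rw [Subgroup.mem_center_iff] at hx
      obtain ⟨x, rfl⟩ := tr0.surjective x
      refine ⟨x, ?_, rfl⟩
      rw [SetLike.mem_coe, Subgroup.mem_center_iff]
      intro g
      apply tr0.injective
      rw [map_mul, map_mul]
      exact hx (tr0 g))

lemma tr_mk (A : Matrix.SpecialLinearGroup ι F) : tr (mk A) = mk (tr0 A) := rfl

lemma tr_tv {v φ : ι → F} (h : φ ⬝ᵥ v = 0) : tr (mk (tv v φ)) = mk (tv (-φ) v) := by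
  rw [tr_mk]
  congr 1
  apply coe_inj
  change (((tv v φ)⁻¹).1)ᵀ = _
  rw [tv_inv h, tv_val (by rw [neg_dotProduct, h, neg_zero]),
    tv_val (by rw [dotProduct_neg, dotProduct_comm, h, neg_zero]), transpose_add, transpose_one,
    transpose_vecMulVec]

lemma im_tr_PV (v : ι → F) : im tr (PV v) = PH v := by
  ext x
  constructor
  · rintro ⟨y, hy, rfl⟩
    obtain ⟨φ, h, rfl⟩ := mem_PV.1 hy
    change tr (mk (tv v φ)) ∈ PH v
    rw [tr_tv h]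
    exact mem_PH_tv (by rw [dotProduct_neg, dotProduct_comm, h, neg_zero])
  · intro hx
    obtain ⟨w, h, rfl⟩ := mem_PH.1 hx
    refine ⟨mk (tv v (-w)), mem_PV_tv (by rw [neg_dotProduct, dotProduct_comm, h, neg_zero]), ?_⟩
    change tr _ = _
    rw [tr_tv (by rw [neg_dotProduct, dotProduct_comm, h, neg_zero]), neg_neg]

lemma im_PH (hι : 3 ≤ Fintype.card ι) (f : MulAut (Pn ι F)) {φ : ι → F} (hφ : φ ≠ 0) :
    Pt (im f (PH φ)) ∨ Hp (im f (PH φ)) := by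
  rw [← im_tr_PV, ← im_mul]
  exact im_PV hι _ hφ

lemma typeA (hι : 3 ≤ Fintype.card ι) (f : MulAut (Pn ι F)) {v φ : ι → F} (hv : v ≠ 0)
    (h : Pt (im f (PV v))) (hφ : φ ≠ 0) (hφv : φ ⬝ᵥ v = 0) : Hp (im f (PH φ)) := by
  rcases im_PH hι f hφ with h1 | h1
  · exfalso
    obtain ⟨w, hw, h2⟩ := h
    obtain ⟨w', hw', h3⟩ := h1
    have h4 : f (mk (tv v φ)) ≠ 1 := fun h0 =>
      mk_tv_ne_one hι hv hφ hφv (f.injective (by rw [h0, map_one]))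
    have h5 := meetVV hι hw hw' h4 (h2 ▸ mem_im f _ (mem_PV_tv hφv)) (h3 ▸ mem_im f _ (mem_PH_tv hφv))
    rw [← h2, ← h3] at h5
    have h6 := im_injective f h5
    exact not_both hι ⟨v, hv, rfl⟩ ⟨φ, hφ, h6⟩
  · exact h1

lemma typeB (hι : 3 ≤ Fintype.card ι) (f : MulAut (Pn ι F)) {v w : ι → F} (hv : v ≠ 0)
    (h : Pt (im f (PV v))) (hw : w ≠ 0) : Pt (im f (PV w)) := by
  obtain ⟨φ, hφ, h1, h2⟩ := exists_ker2 hι v w
  rw [dotProduct_comm] at h1 h2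
  have h3 := typeA hι f hv h hφ h1
  rcases im_PV hι f hw with h4 | h4
  · exact h4
  · exfalso
    obtain ⟨ψ, hψ, h5⟩ := h3
    obtain ⟨χ, hχ, h6⟩ := h4
    have h7 : f (mk (tv w φ)) ≠ 1 := fun h0 =>
      mk_tv_ne_one hι hw hφ h2 (f.injective (by rw [h0, map_one]))
    have h8 := meetHH hι hψ hχ h7 (h5 ▸ mem_im f _ (mem_PH_tv h2)) (h6 ▸ mem_im f _ (mem_PV_tv h2))
    rw [← h5, ← h6] at h8
    exact not_both hι ⟨w, hw, rfl⟩ ⟨φ, hφ, (im_injective f h8).symm⟩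

/-- Type preserving automorphisms. -/
def TP (f : MulAut (Pn ι F)) : Prop := ∀ v : ι → F, v ≠ 0 → Pt (im f (PV v))

lemma TP.hp (hι : 3 ≤ Fintype.card ι) {f : MulAut (Pn ι F)} (h : TP f) {φ : ι → F} (hφ : φ ≠ 0) :
    Hp (im f (PH φ)) := by
  obtain ⟨v, hv, h1, -⟩ := exists_ker2 hι φ φ
  exact typeA hι f hv (h v hv) hφ h1

lemma TP.mul {f g : MulAut (Pn ι F)} (hf : TP f) (hg : TP g) : TP (f * g) := by
  intro v hv
  obtain ⟨w, hw, h1⟩ := hg v hv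
  rw [im_mul, h1]
  exact hf w hw

lemma TP.one : TP (1 : MulAut (Pn ι F)) := by
  intro v hv
  refine ⟨v, hv, ?_⟩
  ext x
  constructor
  · rintro ⟨y, hy, rfl⟩
    exact hy
  · intro hx
    exact ⟨x, hx, rfl⟩

lemma TP.pow {f : MulAut (Pn ι F)} (hf : TP f) (k : ℕ) : TP (f ^ k) := by
  induction k with
  | zero => rw [pow_zero]; exact TP.one
  | succ k ih => rw [pow_succ]; exact ih.mul hf

lemma TP_sq (hι : 3 ≤ Fintype.card ι) (f : MulAut (Pn ι F)) : TP (f * f) := by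
  by_cases h : ∃ v : ι → F, v ≠ 0 ∧ Pt (im f (PV v))
  · obtain ⟨v, hv, h1⟩ := h
    have hf : TP f := fun w hw => typeB hι f hv h1 hw
    exact hf.mul hf
  · push Not at h
    intro v hv
    obtain ⟨ψ, hψ, h1⟩ := (im_PV hι f hv).resolve_left (h v hv)
    rw [im_mul, h1]
    rcases im_PH hι f hψ with h2 | h2
    · exact h2
    · exfalso
      obtain ⟨w, hw, h3, -⟩ := exists_ker2 hι ψ ψ
      obtain ⟨χ, hχ, h4⟩ := (im_PV hι f hw).resolve_left (h w hw)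
      obtain ⟨χ', hχ', h5⟩ := h2
      have h7 : f (mk (tv w ψ)) ≠ 1 := fun h0 =>
        mk_tv_ne_one hι hw hψ h3 (f.injective (by rw [h0, map_one]))
      have h8 := meetHH hι hχ hχ' h7 (h4 ▸ mem_im f _ (mem_PV_tv h3))
        (h5 ▸ mem_im f _ (mem_PH_tv h3))
      rw [← h4, ← h5] at h8
      exact not_both hι ⟨w, hw, rfl⟩ ⟨ψ, hψ, im_injective f h8⟩

/-- Automorphisms of odd order are type preserving. -/
lemma TP_odd (hι : 3 ≤ Fintype.card ι) {f : MulAut (Pn ι F)} {m : ℕ} (h : f ^ (2 * m + 1) = 1) :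
    TP f := by
  have h1 : f = (f * f) ^ (m + 1) := by
    rw [← pow_two, ← pow_mul]
    have h2 : 2 * (m + 1) = 2 * m + 1 + 1 := by ring
    rw [h2, pow_succ, h, one_mul]
  rw [h1]
  exact (TP_sq hι f).pow _

end Pool.Agent.BSpi.PSLn
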